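import Mathlib

/-! Completeness criterion (Jorgensen-Pedersen) for systems of exponentials on the line. -/

set_option autoImplicit false
open MeasureTheory Filter Topology
open scoped ENNReal Real

namespace Pool.Agent.X125.Spec

/-- The exponential `x ↦ e^{2π i t x}`. -/
noncomputable def ex (t x : ℝ) : ℂ := Complex.exp (2 * π * Complex.I * ((t * x : ℝ) : ℂ))

/-- `∫ e^{2π i t x} dμ(x)`. -/
noncomputable def ehat (μ : Measure ℝ) (t : ℝ) : ℂ := ∫ x, ex t x ∂μ

theorem ex_continuous (t : ℝ) : Continuous (ex t) := by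
  unfold ex; fun_prop

theorem ex_norm (t x : ℝ) : ‖ex t x‖ = 1 := by
  unfold ex
  have : (2 * π * Complex.I * ((t * x : ℝ) : ℂ)) = ((2 * π * (t * x) : ℝ) : ℂ) * Complex.I := by
    push_cast; ring
  rw [this, Complex.norm_exp_ofReal_mul_I]

theorem ex_add (s t x : ℝ) : ex (s + t) x = ex s x * ex t x := by
  unfold ex
  rw [← Complex.exp_add]; congr 1; push_cast; ring

theorem ex_add_right (t x y : ℝ) : ex t (x + y) = ex t x * ex t y := by
  unfold ex
  rw [← Complex.exp_add]; congr 1; push_cast; ring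

theorem ex_zero (x : ℝ) : ex 0 x = 1 := by
  unfold ex; simp

theorem ex_neg (t x : ℝ) : ex (-t) x = (starRingEnd ℂ) (ex t x) := by
  unfold ex
  rw [← Complex.exp_conj]; congr 1
  simp only [map_mul, Complex.conj_I, Complex.conj_ofReal, Complex.conj_ofNat]
  push_cast; ring

theorem ex_sub (s t x : ℝ) : ex (s - t) x = (starRingEnd ℂ) (ex t x) * ex s x := by
  rw [sub_eq_add_neg, ex_add, ex_neg, mul_comm]

theorem ex_mul_right (t c x : ℝ) : ex t (c * x) = ex (t * c) x := by
  unfold ex; congr 2; push_cast; ring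

theorem ex_memLp (μ : Measure ℝ) [IsFiniteMeasure μ] (t : ℝ) (p : ℝ≥0∞) : MemLp (ex t) p μ := by
  refine MemLp.of_bound (ex_continuous t).aestronglyMeasurable 1 (Eventually.of_forall fun x => ?_)
  rw [ex_norm]

theorem ex_integrable (μ : Measure ℝ) [IsFiniteMeasure μ] (t : ℝ) : Integrable (ex t) μ :=
  memLp_one_iff_integrable.1 (ex_memLp μ t 1)

/-- Abstract limiting argument. -/
theorem jp_limit {ι : Type*} [DecidableEq ι] (S : ℕ → Finset ι) (hS : Monotone S)
    (a : ι → ℝ) (b : ℕ → ι → ℝ) (ha : ∀ i, 0 ≤ a i) (hb : ∀ n i, 0 ≤ b n i)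
    (hconv : ∀ i, Tendsto (fun n => b n i) atTop (𝓝 (a i)))
    (hsum : ∀ n, ∑ i ∈ S n, b n i = 1) (δ : ℝ) (hδ : 0 < δ)
    (E : ℕ → Finset ι) (hE : Tendsto (fun n => ∑ i ∈ E n, b n i) atTop (𝓝 0))
    (hlow : ∀ᶠ n in atTop, ∀ i ∈ S n, i ∉ E n → δ * b n i ≤ a i) (ε : ℝ) (hε : 0 < ε) :
    ∃ n, 1 - ε ≤ ∑ i ∈ S n, a i := by
  by_contra hcon
  push Not at hcon
  set Q : ℕ → ℝ := fun n => ∑ i ∈ S n, a i with hQ
  have hQmono : Monotone Q := fun m n h =>
    Finset.sum_le_sum_of_subset_of_nonneg (hS h) (fun i _ _ => ha i)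
  have hQbdd : BddAbove (Set.range Q) := ⟨1 - ε, by rintro _ ⟨n, rfl⟩; exact (hcon n).le⟩
  have hQlim : Tendsto Q atTop (𝓝 (⨆ n, Q n)) := tendsto_atTop_ciSup hQmono hQbdd
  set q := ⨆ n, Q n with hq
  have key : ∀ k, Q k + δ * ε ≤ q := by
    intro k
    have h1 : ∀ᶠ n in atTop, Q k + δ * (1 - ∑ i ∈ S k, b n i - ∑ i ∈ E n, b n i) ≤ Q n := by
      filter_upwards [hlow, eventually_ge_atTop k] with n hn hkn
      have hsub : S k ⊆ S n := hS hkn
      have e1 : Q n = Q k + ∑ i ∈ S n \ S k, a i := by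
        simp only [hQ]
        rw [← Finset.sum_sdiff hsub]; ring
      have e2 : ∑ i ∈ (S n \ S k) \ E n, δ * b n i ≤ ∑ i ∈ S n \ S k, a i := by
        calc ∑ i ∈ (S n \ S k) \ E n, δ * b n i ≤ ∑ i ∈ (S n \ S k) \ E n, a i := by
              apply Finset.sum_le_sum
              intro i hi
              simp only [Finset.mem_sdiff] at hi
              exact hn i hi.1.1 hi.2
          _ ≤ _ := Finset.sum_le_sum_of_subset_of_nonneg Finset.sdiff_subset (fun i _ _ => ha i)
      have e3 : 1 - ∑ i ∈ S k, b n i - ∑ i ∈ E n, b n i ≤ ∑ i ∈ (S n \ S k) \ E n, b n i := by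
        have h2 : ∑ i ∈ S n, b n i ≤ ∑ i ∈ (S n \ S k) \ E n, b n i + ∑ i ∈ S k, b n i
            + ∑ i ∈ E n, b n i := by
          have hcov : S n ⊆ (((S n \ S k) \ E n) ∪ S k) ∪ E n := by
            intro i hi
            simp only [Finset.mem_union, Finset.mem_sdiff]
            tauto
          calc ∑ i ∈ S n, b n i ≤ ∑ i ∈ (((S n \ S k) \ E n) ∪ S k) ∪ E n, b n i :=
                Finset.sum_le_sum_of_subset_of_nonneg hcov (fun i _ _ => hb n i)
            _ ≤ ∑ i ∈ ((S n \ S k) \ E n) ∪ S k, b n i + ∑ i ∈ E n, b n i := by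
                have := Finset.sum_union_inter (s₁ := ((S n \ S k) \ E n) ∪ S k) (s₂ := E n)
                  (f := fun i => b n i)
                have h0 : 0 ≤ ∑ i ∈ (((S n \ S k) \ E n) ∪ S k) ∩ E n, b n i :=
                  Finset.sum_nonneg (fun i _ => hb n i)
                linarith
            _ ≤ _ := by
                have := Finset.sum_union_inter (s₁ := ((S n \ S k) \ E n)) (s₂ := S k)
                  (f := fun i => b n i)
                have h0 : 0 ≤ ∑ i ∈ ((S n \ S k) \ E n) ∩ S k, b n i :=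
                  Finset.sum_nonneg (fun i _ => hb n i)
                linarith
        rw [hsum n] at h2
        linarith
      rw [e1]
      rw [← Finset.mul_sum] at e2
      have := mul_le_mul_of_nonneg_left e3 hδ.le
      linarith
    have h2 : Tendsto (fun n => Q k + δ * (1 - ∑ i ∈ S k, b n i - ∑ i ∈ E n, b n i)) atTop
        (𝓝 (Q k + δ * (1 - Q k - 0))) := by
      have h3 : Tendsto (fun n => ∑ i ∈ S k, b n i) atTop (𝓝 (Q k)) :=
        tendsto_finsetSum _ (fun i _ => hconv i)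
      exact ((((tendsto_const_nhds.sub h3).sub hE).const_mul δ).const_add (Q k))
    have h3 : Q k + δ * (1 - Q k - 0) ≤ q := le_of_tendsto_of_tendsto h2 hQlim h1
    have h4 := hcon k
    have h5 : ε ≤ 1 - Q k := by
      have : Q k < 1 - ε := h4
      linarith
    have := mul_le_mul_of_nonneg_left h5 hδ.le
    linarith
  have h6 : q ≤ q - δ * ε := by
    apply le_of_tendsto' hQlim
    intro k
    linarith [key k]
  have : 0 < δ * ε := mul_pos hδ hε
  linarith

/-- Uniqueness of Fourier transforms for real densities. -/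
theorem real_unique (μ : Measure ℝ) [IsFiniteMeasure μ] (u : ℝ → ℝ) (hu : Integrable u μ)
    (h : ∀ ξ : ℝ, ∫ x, (u x : ℂ) * ex ξ x ∂μ = 0) : u =ᵐ[μ] 0 := by
  -- positive and negative parts
  obtain ⟨v, hvm, hv⟩ : ∃ v : ℝ → ℝ, Measurable v ∧ u =ᵐ[μ] v :=
    ⟨hu.1.mk u, hu.1.stronglyMeasurable_mk.measurable, hu.1.ae_eq_mk⟩
  have hvint : Integrable v μ := hu.congr hv
  have hv0 : ∀ ξ : ℝ, ∫ x, (v x : ℂ) * ex ξ x ∂μ = 0 := by
    intro ξ
    rw [← h ξ]
    apply integral_congr_ae
    filter_upwards [hv] with x hx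
    rw [hx]
  set P : Measure ℝ := μ.withDensity (fun x => ENNReal.ofReal (v x)) with hP
  set M : Measure ℝ := μ.withDensity (fun x => ENNReal.ofReal (- v x)) with hM
  have finP : IsFiniteMeasure P := isFiniteMeasure_withDensity_ofReal hvint.2
  have finM : IsFiniteMeasure M := isFiniteMeasure_withDensity_ofReal hvint.neg.2
  have hPM : P = M := by
    apply Measure.ext_of_charFun
    ext t
    rw [charFun_apply, charFun_apply]
    have e : ∀ x : ℝ, Complex.exp (((inner ℝ x t : ℝ) : ℂ) * Complex.I) = ex (t / (2 * π)) x := by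
      intro x
      unfold ex
      congr 1
      have : (π : ℂ) ≠ 0 := by exact_mod_cast Real.pi_ne_zero
      simp only [RCLike.inner_apply, conj_trivial]
      push_cast
      field_simp
    simp only [e]
    rw [hP, hM]
    rw [integral_withDensity_eq_integral_toReal_smul (by fun_prop) (by simp),
      integral_withDensity_eq_integral_toReal_smul (by fun_prop) (by simp)]
    rw [← sub_eq_zero, ← integral_sub]
    · rw [← hv0 (t / (2 * π))]
      apply integral_congr_ae
      filter_upwards with x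
      rw [← sub_smul, Complex.real_smul]
      congr 2
      rcases le_total 0 (v x) with h0 | h0
      · rw [ENNReal.toReal_ofReal h0, ENNReal.ofReal_of_nonpos (by linarith)]; simp
      · rw [ENNReal.ofReal_of_nonpos h0, ENNReal.toReal_ofReal (by linarith)]; simp
    · have : Integrable (fun x => (ENNReal.ofReal (v x)).toReal) μ := by
        refine hvint.mono (by exact (Measurable.ennreal_toReal (by fun_prop)).aestronglyMeasurable) ?_
        filter_upwards with x
        rcases le_total 0 (v x) with h0 | h0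
        · rw [ENNReal.toReal_ofReal h0]
        · rw [ENNReal.ofReal_of_nonpos h0]; simp
      refine this.smul_of_top_left ?_
      exact ex_memLp μ _ ⊤
    · have : Integrable (fun x => (ENNReal.ofReal (-v x)).toReal) μ := by
        refine hvint.mono (by exact (Measurable.ennreal_toReal (by fun_prop)).aestronglyMeasurable) ?_
        filter_upwards with x
        rcases le_total 0 (v x) with h0 | h0
        · rw [ENNReal.ofReal_of_nonpos (by linarith)]; simp
        · rw [ENNReal.toReal_ofReal (by linarith)]; simp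
      refine this.smul_of_top_left ?_
      exact ex_memLp μ _ ⊤
  have h2 : (fun x => ENNReal.ofReal (v x)) =ᵐ[μ] (fun x => ENNReal.ofReal (- v x)) := by
    apply (withDensity_eq_iff (by fun_prop) (by fun_prop) ?_).1 hPM
    exact (hvint.lintegral_lt_top).ne
  filter_upwards [hv, h2] with x h1 h2
  rw [h1]
  simp only [Pi.zero_apply]
  rcases lt_trichotomy 0 (v x) with h0 | h0 | h0
  · rw [ENNReal.ofReal_of_nonpos (show - v x ≤ 0 by linarith), ENNReal.ofReal_eq_zero] at h2
    linarith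
  · exact h0.symm
  · rw [ENNReal.ofReal_of_nonpos (show v x ≤ 0 by linarith)] at h2
    have := ENNReal.ofReal_eq_zero.1 h2.symm
    linarith

/-- Uniqueness of Fourier transforms for complex densities. -/
theorem complex_unique (μ : Measure ℝ) [IsFiniteMeasure μ] (f : ℝ → ℂ) (hf : Integrable f μ)
    (h : ∀ ξ : ℝ, ∫ x, f x * ex ξ x ∂μ = 0) : f =ᵐ[μ] 0 := by
  have hint : ∀ ξ, Integrable (fun x => f x * ex ξ x) μ := by
    intro ξ
    have := hf.smul_of_top_left (ex_memLp μ ξ ⊤)
    refine this.congr ?_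
    filter_upwards with x
    simp
  have hc : ∀ ξ : ℝ, ∫ x, (starRingEnd ℂ) (f x) * ex ξ x ∂μ = 0 := by
    intro ξ
    have h1 := h (-ξ)
    have h2 : ∫ x, (starRingEnd ℂ) (f x * ex (-ξ) x) ∂μ = 0 := by
      rw [integral_conj, h1]; simp
    rw [← h2]
    apply integral_congr_ae
    filter_upwards with x
    rw [map_mul, ← ex_neg, neg_neg]
  have hintc : ∀ ξ, Integrable (fun x => (starRingEnd ℂ) (f x) * ex ξ x) μ := by
    intro ξ
    have h1 : Integrable (fun x => (starRingEnd ℂ) (f x)) μ :=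
      hf.mono (Complex.continuous_conj.comp_aestronglyMeasurable hf.1)
        (Eventually.of_forall fun x => by simp)
    have := h1.smul_of_top_left (ex_memLp μ ξ ⊤)
    refine this.congr ?_
    filter_upwards with x
    simp
  have hre : (fun x => (f x).re) =ᵐ[μ] 0 := by
    apply real_unique μ _ hf.re
    intro ξ
    have : ∀ x, (((f x).re : ℝ) : ℂ) * ex ξ x
        = (1 / 2 : ℂ) * (f x * ex ξ x + (starRingEnd ℂ) (f x) * ex ξ x) := by
      intro x
      rw [Complex.re_eq_add_conj]; ring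
    refine (integral_congr_ae (Eventually.of_forall this)).trans ?_
    rw [integral_const_mul, integral_add (hint ξ) (hintc ξ), h ξ, hc ξ]
    simp
  have him : (fun x => (f x).im) =ᵐ[μ] 0 := by
    apply real_unique μ _ hf.im
    intro ξ
    have : ∀ x, (((f x).im : ℝ) : ℂ) * ex ξ x
        = (1 / (2 * Complex.I) : ℂ) * (f x * ex ξ x - (starRingEnd ℂ) (f x) * ex ξ x) := by
      intro x
      rw [Complex.im_eq_sub_conj]; ring
    refine (integral_congr_ae (Eventually.of_forall this)).trans ?_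
    rw [integral_const_mul, integral_sub (hint ξ) (hintc ξ), h ξ, hc ξ]
    simp
  filter_upwards [hre, him] with x h1 h2
  exact Complex.ext h1 h2

/-- Jorgensen-Pedersen completeness criterion. -/
theorem complete_of_parseval (μ : Measure ℝ) [IsProbabilityMeasure μ] {ι : Type*}
    [DecidableEq ι] (lam : ι → ℝ)
    (horth : ∀ i j, i ≠ j → ehat μ (lam i - lam j) = 0)
    (hpars : ∀ ξ : ℝ, ∀ ε : ℝ, 0 < ε → ∃ F : Finset ι,
      1 - ε ≤ ∑ i ∈ F, ‖ehat μ (ξ - lam i)‖ ^ 2)
    (f : ℝ → ℂ) (hf : MemLp f 2 μ)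
    (hfo : ∀ i, ∫ x, f x * ex (-lam i) x ∂μ = 0) : f =ᵐ[μ] 0 := by
  set e : ℝ → Lp ℂ 2 μ := fun t => (ex_memLp μ t 2).toLp (ex t) with he
  set g : Lp ℂ 2 μ := hf.toLp f with hg
  have hee : ∀ s t, inner ℂ (e s) (e t) = ehat μ (t - s) := by
    intro s t
    rw [L2.inner_def]
    unfold ehat
    apply integral_congr_ae
    filter_upwards [(ex_memLp μ t 2).coeFn_toLp, (ex_memLp μ s 2).coeFn_toLp] with x h1 h2
    rw [he]
    simp only
    rw [h1, h2, RCLike.inner_apply, ex_sub, mul_comm]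
  have heg : ∀ s, inner ℂ (e s) g = ∫ x, f x * ex (-s) x ∂μ := by
    intro s
    rw [L2.inner_def]
    apply integral_congr_ae
    filter_upwards [hf.coeFn_toLp, (ex_memLp μ s 2).coeFn_toLp] with x h1 h2
    rw [he, hg]
    simp only
    rw [h1, h2, RCLike.inner_apply, ex_neg]
  have hnorm : ∀ s, ‖e s‖ = 1 := by
    intro s
    have h1 : inner ℂ (e s) (e s) = (1 : ℂ) := by
      rw [hee, sub_self]
      unfold ehat
      simp [ex_zero]
    have h2 := inner_self_eq_norm_sq_to_K (𝕜 := ℂ) (e s)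
    rw [h1] at h2
    have h3 : (‖e s‖ : ℝ) ^ 2 = 1 := by
      have h4 : ((‖e s‖ ^ 2 : ℝ) : ℂ) = ((1 : ℝ) : ℂ) := by
        push_cast
        exact h2.symm
      exact Complex.ofReal_inj.1 h4
    nlinarith [norm_nonneg (e s)]
  have horthn : Orthonormal ℂ (fun i => e (lam i)) := by
    constructor
    · intro i; exact hnorm _
    · intro i j hij
      change inner ℂ (e (lam i)) (e (lam j)) = 0
      rw [hee]
      exact horth j i (Ne.symm hij)
  have hall : ∀ ξ : ℝ, inner ℂ (e ξ) g = (0 : ℂ) := by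
    intro ξ
    by_contra hne
    have hpos : 0 < ‖(inner ℂ (e ξ) g : ℂ)‖ := norm_pos_iff.2 hne
    have key : ∀ F : Finset ι, ‖(inner ℂ (e ξ) g : ℂ)‖ ^ 2
        ≤ (1 - ∑ i ∈ F, ‖ehat μ (ξ - lam i)‖ ^ 2) * ‖g‖ ^ 2 := by
      intro F
      set p : Lp ℂ 2 μ := ∑ i ∈ F, (inner ℂ (e (lam i)) (e ξ) : ℂ) • e (lam i) with hp
      have h1 : inner ℂ (e ξ) g = (inner ℂ (e ξ - p) g : ℂ) := by
        rw [inner_sub_left]
        have : (inner ℂ p g : ℂ) = 0 := by
          rw [hp, sum_inner]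
          apply Finset.sum_eq_zero
          intro i _
          rw [inner_smul_left, heg, hfo i, mul_zero]
        rw [this, sub_zero]
      have h2 : ‖e ξ - p‖ ^ 2 = 1 - ∑ i ∈ F, ‖ehat μ (ξ - lam i)‖ ^ 2 := by
        have h3 : (inner ℂ (e ξ - p) (e ξ - p) : ℂ)
            = 1 - ∑ i ∈ F, ((‖ehat μ (ξ - lam i)‖ ^ 2 : ℝ) : ℂ) := by
          have hep : (inner ℂ (e ξ) p : ℂ) = ∑ i ∈ F, ((‖ehat μ (ξ - lam i)‖ ^ 2 : ℝ) : ℂ) := by
            rw [hp, inner_sum]
            apply Finset.sum_congr rfl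
            intro i _
            rw [inner_smul_right, ← inner_conj_symm (e ξ) (e (lam i)), hee, mul_comm,
              ← Complex.normSq_eq_conj_mul_self, Complex.normSq_eq_norm_sq]
          have hpe : (inner ℂ p (e ξ) : ℂ) = ∑ i ∈ F, ((‖ehat μ (ξ - lam i)‖ ^ 2 : ℝ) : ℂ) := by
            rw [← inner_conj_symm, hep, map_sum]
            apply Finset.sum_congr rfl
            intro i _
            rw [Complex.conj_ofReal]
          have hpp : (inner ℂ p p : ℂ) = ∑ i ∈ F, ((‖ehat μ (ξ - lam i)‖ ^ 2 : ℝ) : ℂ) := by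
            rw [hp]
            rw [horthn.inner_sum]
            apply Finset.sum_congr rfl
            intro i _
            rw [hee, ← Complex.normSq_eq_conj_mul_self, Complex.normSq_eq_norm_sq]
          rw [inner_sub_left, inner_sub_right, inner_sub_right, hep, hpe, hpp, hee, sub_self]
          have : ehat μ 0 = 1 := by unfold ehat; simp [ex_zero]
          rw [this]; ring
        have h4 := inner_self_eq_norm_sq_to_K (𝕜 := ℂ) (e ξ - p)
        rw [h3] at h4
        have h5 : ((1 - ∑ i ∈ F, ‖ehat μ (ξ - lam i)‖ ^ 2 : ℝ) : ℂ) = ((‖e ξ - p‖ ^ 2 : ℝ) : ℂ) := by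
          push_cast at h4 ⊢
          exact h4
        exact (Complex.ofReal_inj.1 h5).symm
      rw [h1, ← h2]
      calc ‖(inner ℂ (e ξ - p) g : ℂ)‖ ^ 2 ≤ (‖e ξ - p‖ * ‖g‖) ^ 2 := by
            gcongr
            exact norm_inner_le_norm _ _
        _ = _ := by ring
    -- choose ε
    have hg0 : 0 ≤ ‖g‖ ^ 2 := by positivity
    obtain ⟨F, hF⟩ := hpars ξ (‖(inner ℂ (e ξ) g : ℂ)‖ ^ 2 / (2 * (‖g‖ ^ 2 + 1))) (by positivity)
    have h7 := key F
    have h8 : (1 - ∑ i ∈ F, ‖ehat μ (ξ - lam i)‖ ^ 2) * ‖g‖ ^ 2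
        ≤ ‖(inner ℂ (e ξ) g : ℂ)‖ ^ 2 / (2 * (‖g‖ ^ 2 + 1)) * ‖g‖ ^ 2 := by
      apply mul_le_mul_of_nonneg_right _ hg0
      linarith
    have h9 : ‖(inner ℂ (e ξ) g : ℂ)‖ ^ 2 / (2 * (‖g‖ ^ 2 + 1)) * ‖g‖ ^ 2
        < ‖(inner ℂ (e ξ) g : ℂ)‖ ^ 2 := by
      have hd : 0 < 2 * (‖g‖ ^ 2 + 1) := by positivity
      rw [div_mul_eq_mul_div, div_lt_iff₀ hd]
      have : 0 < ‖(inner ℂ (e ξ) g : ℂ)‖ ^ 2 := by positivity
      nlinarith
    linarith
  have hfi : Integrable f μ := hf.integrable (by norm_num)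
  apply complex_unique μ f hfi
  intro ξ
  have := hall (-ξ)
  rw [heg, neg_neg] at this
  exact this

end Pool.Agent.X125.Spec
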