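import Pool.Agent.X125.Spec.Twelve

/-! A spectrum of the `1/4`-Cantor measure with few complete numbers. -/

set_option autoImplicit false
open MeasureTheory Filter Topology
open scoped ENNReal Real

namespace Pool.Agent.X125.Spec.Four

/-- The digits. -/
noncomputable def dg : Fin 2 → ℝ := ![0, 2]

/-- The `1/4`-Cantor measure. -/
noncomputable def mu : Measure ℝ := ssm 4 dg

instance : IsProbabilityMeasure mu := ssm_prob (by norm_num) dg

/-- Squared modulus of the mask. -/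
noncomputable def qq (t : ℝ) : ℝ := Real.cos (2 * π * t) ^ 2

theorem qq_nonneg (t : ℝ) : 0 ≤ qq t := by unfold qq; positivity

theorem qq_le (t : ℝ) : qq t ≤ 1 := by unfold qq; exact Real.cos_sq_le_one _

theorem mask_norm (t : ℝ) : ‖mask dg t‖ ^ 2 = qq t := by
  have h : mask dg t = (1 + ex t 2) / 2 := by
    unfold mask
    rw [Fin.sum_univ_two]
    have h0 : dg 0 = 0 := rfl
    have h1 : dg 1 = 2 := rfl
    rw [h0, h1]
    have e0 : ex t 0 = 1 := by unfold ex; simp
    rw [e0]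
    simp only [Fintype.card_fin, Nat.cast_ofNat]
    ring
  rw [h, Twelve.norm_one_add_ex]
  unfold qq
  congr 2
  ring

theorem qq_add_int (t : ℝ) (z : ℤ) : qq (t + z) = qq t := by
  unfold qq
  have h1 : 2 * π * (t + z) = 2 * π * t + ((2 * z : ℤ) : ℝ) * π := by push_cast; ring
  rw [h1, Twelve.cos_sq_add_int_mul_pi]

theorem qq_split (x : ℝ) (d d' : ℤ) (h : (d - d') % 2 = 1) :
    qq (x - d / 4) + qq (x - d' / 4) = 1 := by
  obtain ⟨m, hm⟩ : ∃ m : ℤ, d = d' + 1 + 2 * m := ⟨(d - d') / 2, by omega⟩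
  have h1 : qq (x - d / 4) = Real.sin (2 * π * (x - d' / 4)) ^ 2 := by
    unfold qq
    have e : 2 * π * (x - d / 4) = (2 * π * (x - d' / 4) - π / 2) + ((-m : ℤ) : ℝ) * π := by
      rw [hm]; push_cast; ring
    rw [e, Twelve.cos_sq_add_int_mul_pi, Real.cos_sub_pi_div_two]
  rw [h1]
  unfold qq
  exact Real.sin_sq_add_cos_sq _

/-- Partial products. -/
noncomputable def W : ℕ → ℝ → ℝ
  | 0, _ => 1
  | k + 1, y => W k y * qq (y / 4 ^ (k + 1))

theorem W_nonneg (k : ℕ) (y : ℝ) : 0 ≤ W k y := by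
  induction k with
  | zero => simp [W]
  | succ k ih => exact mul_nonneg ih (qq_nonneg _)

theorem W_per (k : ℕ) (y : ℝ) (z : ℤ) : W k (y + 4 ^ k * z) = W k y := by
  induction k generalizing z with
  | zero => simp [W]
  | succ k ih =>
    simp only [W]
    have e1 : y + 4 ^ (k + 1) * (z : ℝ) = y + 4 ^ k * ((4 * z : ℤ) : ℝ) := by
      push_cast; ring
    have e2 : (y + 4 ^ (k + 1) * (z : ℝ)) / 4 ^ (k + 1) = y / 4 ^ (k + 1) + z := by
      field_simp
    rw [e2, qq_add_int, e1, ih]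

theorem W_split (k : ℕ) (y : ℝ) (d d' : ℤ) (h : (d - d') % 2 = 1) :
    W (k + 1) (y - 4 ^ k * d) + W (k + 1) (y - 4 ^ k * d') = W k y := by
  simp only [W]
  have e1 : ∀ d : ℤ, W k (y - 4 ^ k * d) = W k y := by
    intro d
    have : y - 4 ^ k * (d : ℝ) = y + 4 ^ k * ((-d : ℤ) : ℝ) := by push_cast; ring
    rw [this, W_per]
  have e2 : ∀ d : ℤ, (y - 4 ^ k * (d : ℝ)) / 4 ^ (k + 1) = y / 4 ^ (k + 1) - d / 4 := by
    intro d
    rw [pow_succ]
    field_simp
  rw [e1, e1, e2, e2, ← mul_add, qq_split _ _ _ h, mul_one]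

theorem ehat_norm (k : ℕ) (y : ℝ) :
    ‖ehat mu y‖ ^ 2 = W k y * ‖ehat mu (y / 4 ^ k)‖ ^ 2 := by
  induction k with
  | zero => simp [W]
  | succ k ih =>
    have h : ehat mu (y / 4 ^ k) = mask dg (y / 4 ^ k / 4) * ehat mu (y / 4 ^ k / 4) :=
      ehat_ssm (by norm_num) dg _
    have e : y / 4 ^ k / 4 = y / 4 ^ (k + 1) := by rw [pow_succ]; field_simp
    rw [ih, h, norm_mul, mul_pow, mask_norm, e]
    simp only [W]
    ring

theorem mu_supp : ∀ᵐ x ∂mu, 0 ≤ x ∧ x ≤ 2 / 3 := by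
  have h := ssm_supp (N := 4) (by norm_num) dg 0 2
    (by intro a; fin_cases a <;> simp [dg])
    (by intro a; fin_cases a <;> simp [dg])
  filter_upwards [h] with x hx
  constructor
  · linarith [hx.1]
  · have := hx.2
    norm_num at this
    linarith

theorem low (y : ℝ) (hy : |y| ≤ 1 / 2) : 1 / 4 ≤ ‖ehat mu y‖ ^ 2 := by
  have h1 : 1 / 2 ≤ ‖ehat mu y‖ := by
    have h2 : ehat mu y = ex y (1 / 3) * ∫ x, ex y (x - 1 / 3) ∂mu := by
      unfold ehat
      rw [← integral_const_mul]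
      apply integral_congr_ae
      filter_upwards with x
      rw [← ex_add_right]; congr 1; ring
    rw [h2, norm_mul, ex_norm, one_mul]
    have hint : Integrable (fun x => ex y (x - 1 / 3)) mu := by
      refine Integrable.of_bound ?_ 1 (Eventually.of_forall fun x => (ex_norm _ _).le)
      exact ((ex_continuous y).comp (by fun_prop)).aestronglyMeasurable
    have h3 : 1 / 2 ≤ (∫ x, ex y (x - 1 / 3) ∂mu).re := by
      have h4 : (∫ x, ex y (x - 1 / 3) ∂mu).re = ∫ x, (ex y (x - 1 / 3)).re ∂mu := by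
        have := integral_re hint
        simpa using this.symm
      rw [h4]
      have h5 : ∫ x, (1 / 2 : ℝ) ∂mu = 1 / 2 := by simp
      rw [← h5]
      apply integral_mono_ae (integrable_const _) hint.re
      filter_upwards [mu_supp] with x hx
      have e : (ex y (x - 1 / 3)).re = Real.cos (2 * π * (y * (x - 1 / 3))) := by
        unfold ex
        have : (2 * π * Complex.I * ((y * (x - 1 / 3) : ℝ) : ℂ))
            = ((2 * π * (y * (x - 1 / 3)) : ℝ) : ℂ) * Complex.I := by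
          push_cast; ring
        rw [this, Complex.exp_ofReal_mul_I_re]
      change 1 / 2 ≤ (ex y (x - 1 / 3)).re
      rw [e]
      have h7 : |x - 1 / 3| ≤ 1 / 3 := by
        rw [abs_le]; constructor <;> linarith [hx.1, hx.2]
      have h8 : |2 * π * (y * (x - 1 / 3))| ≤ π / 3 := by
        rw [abs_mul (2 * π), abs_mul y, abs_of_pos (show (0 : ℝ) < 2 * π by positivity)]
        have h9 : |y| * |x - 1 / 3| ≤ 1 / 2 * (1 / 3) :=
          mul_le_mul hy h7 (abs_nonneg _) (by norm_num)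
        calc 2 * π * (|y| * |x - 1 / 3|) ≤ (2 * π) * (1 / 2 * (1 / 3)) :=
              mul_le_mul_of_nonneg_left h9 (by positivity)
          _ = π / 3 := by ring
      rw [← Real.cos_abs, ← Real.cos_pi_div_three]
      exact Real.cos_le_cos_of_nonneg_of_le_pi (abs_nonneg _) (by linarith [Real.pi_pos]) h8
    exact h3.trans (Complex.re_le_norm _)
  have : (1 / 2 : ℝ) ^ 2 ≤ ‖ehat mu y‖ ^ 2 := pow_le_pow_left₀ (by norm_num) h1 2
  norm_num at this ⊢
  exact this

theorem ehat_tendsto (t : ℝ) :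
    Tendsto (fun k : ℕ => ‖ehat mu (t / 4 ^ k)‖ ^ 2) atTop (𝓝 1) := by
  have hcont : Continuous (ehat mu) := by
    unfold ehat
    apply continuous_of_dominated (bound := fun _ => 1)
    · intro s; exact (ex_continuous s).aestronglyMeasurable
    · intro s; exact Eventually.of_forall fun x => (ex_norm s x).le
    · exact integrable_const _
    · refine Eventually.of_forall fun x => ?_
      unfold ex; fun_prop
  have h1 : Tendsto (fun k : ℕ => t / 4 ^ k) atTop (𝓝 0) := by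
    have := (tendsto_pow_atTop_nhds_zero_of_lt_one (r := (4 : ℝ)⁻¹) (by norm_num)
      (by norm_num)).const_mul t
    rw [mul_zero] at this
    refine this.congr fun k => ?_
    rw [inv_pow]; rfl
  have h2 := ((hcont.tendsto 0).comp h1).norm.pow 2
  have h3 : ehat mu 0 = 1 := by unfold ehat; simp [ex_zero]
  rw [h3] at h2
  simpa using h2

theorem W_tendsto (y : ℝ) : Tendsto (fun k => W k y) atTop (𝓝 (‖ehat mu y‖ ^ 2)) := by
  have h2 := ehat_tendsto y
  have h3 : Tendsto (fun k : ℕ => ‖ehat mu y‖ ^ 2 / ‖ehat mu (y / 4 ^ k)‖ ^ 2) atTop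
      (𝓝 (‖ehat mu y‖ ^ 2 / 1)) := tendsto_const_nhds.div h2 (by norm_num)
  rw [div_one] at h3
  refine h3.congr' ?_
  have h4 : ∀ᶠ k in atTop, (0 : ℝ) < ‖ehat mu (y / 4 ^ k)‖ ^ 2 :=
    h2.eventually (lt_mem_nhds (by norm_num))
  filter_upwards [h4] with k hk
  rw [ehat_norm k]
  exact mul_div_cancel_right₀ _ hk.ne'

/-- Base-2 digits reread in base 4. -/
def g (n : ℕ) : ℕ := Nat.ofDigits 4 (Nat.digits 2 n)

theorem g_step (q c : ℕ) (hc : c < 2) : g (2 * q + c) = 4 * g q + c := by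
  unfold g
  rcases Nat.eq_zero_or_pos (2 * q + c) with h | h
  · have hq : q = 0 := by omega
    have hc0 : c = 0 := by omega
    subst hq; subst hc0
    simp
  · rw [Nat.digits_def' (by norm_num) h]
    rw [Nat.ofDigits_cons]
    have h1 : (2 * q + c) % 2 = c := by omega
    have h2 : (2 * q + c) / 2 = q := by omega
    rw [h1, h2]
    ring

theorem g_zero : g 0 = 0 := by simp [g]

theorem g_bound (k n : ℕ) (hn : n < 2 ^ k) : 3 * g n + 1 ≤ 4 ^ k := by
  induction k generalizing n with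
  | zero =>
    have : n = 0 := by simpa using hn
    subst this
    simp [g]
  | succ k ih =>
    have e : n = 2 * (n / 2) + n % 2 := by omega
    have hc : n % 2 < 2 := Nat.mod_lt _ (by norm_num)
    have hq : n / 2 < 2 ^ k := by
      rw [pow_succ] at hn
      omega
    rw [e, g_step _ _ hc, pow_succ]
    have := ih _ hq
    omega

theorem g_top (k n : ℕ) (hn : n < 2 ^ k) : g (2 ^ k + n) = g n + 4 ^ k := by
  induction k generalizing n with
  | zero =>
    have : n = 0 := by simpa using hn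
    subst this
    have : g (2 * 0 + 1) = 4 * g 0 + 1 := g_step 0 1 (by norm_num)
    simpa [g_zero] using this
  | succ k ih =>
    have e : n = 2 * (n / 2) + n % 2 := by omega
    have hc : n % 2 < 2 := Nat.mod_lt _ (by norm_num)
    have hq : n / 2 < 2 ^ k := by
      rw [pow_succ] at hn
      omega
    have e2 : 2 ^ (k + 1) + n = 2 * (2 ^ k + n / 2) + n % 2 := by rw [pow_succ]; omega
    rw [e2, g_step _ _ hc, ih _ hq]
    conv_rhs => rw [e, g_step _ _ hc]
    rw [pow_succ]; ring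

theorem W_parseval (k : ℕ) (ξ : ℝ) : ∑ n ∈ Finset.range (2 ^ k), W k (ξ - g n) = 1 := by
  induction k with
  | zero => simp [W]
  | succ k ih =>
    rw [pow_succ, mul_two, Finset.sum_range_add, ← Finset.sum_add_distrib]
    rw [← ih]
    apply Finset.sum_congr rfl
    intro n hn
    rw [g_top k n (Finset.mem_range.1 hn)]
    have h := W_split k (ξ - g n) 1 0 (by norm_num)
    rw [← h]
    push_cast
    rw [add_comm]
    congr 2
    · ring
    · ring

theorem one_le_of (x : ℝ≥0∞) (h : ∀ ε : ℝ, 0 < ε → ENNReal.ofReal (1 - ε) ≤ x) : 1 ≤ x := by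
  have h1 : Tendsto (fun ε : ℝ => ENNReal.ofReal (1 - ε)) (𝓝[>] 0) (𝓝 (ENNReal.ofReal (1 - 0))) := by
    apply ENNReal.tendsto_ofReal
    have : Continuous (fun ε : ℝ => 1 - ε) := by fun_prop
    exact (this.tendsto 0).mono_left nhdsWithin_le_nhds
  rw [sub_zero, ENNReal.ofReal_one] at h1
  refine le_of_tendsto h1 ?_
  filter_upwards [self_mem_nhdsWithin] with ε hε
  exact h ε hε

theorem canonical (ξ : ℝ) : 1 ≤ ∑' n : ℕ, ENNReal.ofReal (‖ehat mu (ξ - g n)‖ ^ 2) := by
  apply one_le_of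
  intro ε hε
  obtain ⟨n, hn⟩ := jp_limit (ι := ℕ) (fun k => Finset.range (2 ^ k))
    (by
      intro a b hab x hx
      simp only [Finset.mem_range] at hx ⊢
      exact lt_of_lt_of_le hx (Nat.pow_le_pow_right (by norm_num) hab))
    (fun i => ‖ehat mu (ξ - g i)‖ ^ 2)
    (fun k i => W k (ξ - g i))
    (fun i => by positivity)
    (fun n i => W_nonneg _ _)
    (fun i => W_tendsto _)
    (fun k => W_parseval k ξ)
    (1 / 4) (by norm_num) (fun _ => ∅) (by simp)
    (by
      have h1 : Tendsto (fun k : ℕ => (4 : ℝ) ^ k) atTop atTop :=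
        tendsto_pow_atTop_atTop_of_one_lt (by norm_num)
      filter_upwards [h1.eventually_ge_atTop (100 * (|ξ| + 1))] with k hk i hi _
      simp only [Finset.mem_range] at hi
      have hg := g_bound k i hi
      have hgR : 3 * (g i : ℝ) + 1 ≤ 4 ^ k := by exact_mod_cast hg
      have hg0 : (0 : ℝ) ≤ g i := by positivity
      have hy : |(ξ - g i) / 4 ^ k| ≤ 1 / 2 := by
        have hpos : (0 : ℝ) < 4 ^ k := by positivity
        rw [abs_div, abs_of_pos hpos, div_le_iff₀ hpos]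
        have h2 : |ξ - g i| ≤ |ξ| + |(g i : ℝ)| := abs_sub _ _
        rw [abs_of_nonneg hg0] at h2
        linarith
      have := low _ hy
      rw [ehat_norm k]
      calc 1 / 4 * W k (ξ - g i) ≤ ‖ehat mu ((ξ - g i) / 4 ^ k)‖ ^ 2 * W k (ξ - g i) :=
            mul_le_mul_of_nonneg_right this (W_nonneg _ _)
        _ = _ := by ring)
    ε hε
  calc ENNReal.ofReal (1 - ε) ≤ ENNReal.ofReal (∑ i ∈ Finset.range (2 ^ n),
        ‖ehat mu (ξ - g i)‖ ^ 2) := ENNReal.ofReal_le_ofReal hn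
    _ = ∑ i ∈ Finset.range (2 ^ n), ENNReal.ofReal (‖ehat mu (ξ - g i)‖ ^ 2) := by
        rw [ENNReal.ofReal_sum_of_nonneg]
        intro i _; positivity
    _ ≤ _ := ENNReal.sum_le_tsum _

theorem piece (k : ℕ) (ξ : ℝ) (c : ℤ) : ENNReal.ofReal (W k (ξ - c))
    ≤ ∑' n : ℕ, ENNReal.ofReal (‖ehat mu (ξ - ((c + 4 ^ k * (g n : ℤ) : ℤ) : ℝ))‖ ^ 2) := by
  have h1 : ∀ n : ℕ, ‖ehat mu (ξ - ((c + 4 ^ k * (g n : ℤ) : ℤ) : ℝ))‖ ^ 2
      = W k (ξ - c) * ‖ehat mu ((ξ - c) / 4 ^ k - g n)‖ ^ 2 := by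
    intro n
    rw [ehat_norm k]
    have e1 : ξ - ((c + 4 ^ k * (g n : ℤ) : ℤ) : ℝ) = (ξ - c) + 4 ^ k * ((-(g n : ℤ) : ℤ) : ℝ) := by
      push_cast; ring
    have e2 : ((ξ - c) + 4 ^ k * ((-(g n : ℤ) : ℤ) : ℝ)) / 4 ^ k = (ξ - c) / 4 ^ k - g n := by
      push_cast
      field_simp
      ring
    rw [e1, W_per, e2]
  simp only [h1]
  simp only [ENNReal.ofReal_mul (W_nonneg _ _)]
  rw [ENNReal.tsum_mul_left]
  calc ENNReal.ofReal (W k (ξ - c)) = ENNReal.ofReal (W k (ξ - c)) * 1 := by rw [mul_one]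
    _ ≤ _ := mul_le_mul_right (canonical _) _

theorem telescope (a u : ℕ → ℝ) (L : ℝ) (ha : ∀ m, 0 ≤ a m) (h : ∀ m, a m = u m - u (m + 1))
    (hu : Tendsto u atTop (𝓝 L)) : ENNReal.ofReal (u 0 - L) ≤ ∑' m, ENNReal.ofReal (a m) := by
  have h1 : Tendsto (fun M => ENNReal.ofReal (u 0 - u M)) atTop (𝓝 (ENNReal.ofReal (u 0 - L))) :=
    ENNReal.tendsto_ofReal (tendsto_const_nhds.sub hu)
  apply le_of_tendsto' h1
  intro M
  have h2 : u 0 - u M = ∑ m ∈ Finset.range M, a m := by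
    rw [Finset.sum_congr rfl (fun m _ => h m), Finset.sum_range_sub']
  rw [h2, ENNReal.ofReal_sum_of_nonneg (fun i _ => ha i)]
  exact ENNReal.sum_le_tsum _

end Pool.Agent.X125.Spec.Four
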