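import Pool.Agent.X125.Spec.Four

/-! A spectrum of the `1/4`-Cantor measure with few complete numbers, arithmetic part. -/

set_option autoImplicit false
open MeasureTheory Filter Topology
open scoped ENNReal Real

namespace Pool.Agent.X125.Spec.Four

/-- Remainders in the base-4 expansion of `1/t`. -/
def rr (t : ℤ) : ℕ → ℤ
  | 0 => -1
  | m + 1 => (rr t m + t * ((-t * rr t m) % 4)) / 4

/-- Digits of `1/t`. -/
def pp (t : ℤ) (m : ℕ) : ℤ := (-t * rr t m) % 4

/-- Truncations of `1/t`. -/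
def cc (t : ℤ) : ℕ → ℤ
  | 0 => 0
  | m + 1 => cc t m + 4 ^ m * pp t m

/-- The alternative digit. -/
def qd (t : ℤ) (m : ℕ) : ℤ := if pp t m % 2 = 1 then 0 else 1

theorem odd_sq (t : ℤ) (ht : t % 2 = 1) : ∃ k : ℤ, t * t = 1 + 4 * k := by
  obtain ⟨j, hj⟩ : ∃ j : ℤ, t = 2 * j + 1 := ⟨t / 2, by omega⟩
  exact ⟨j * j + j, by rw [hj]; ring⟩

theorem rr_step (t : ℤ) (ht : t % 2 = 1) (m : ℕ) : 4 * rr t (m + 1) = rr t m + t * pp t m := by
  obtain ⟨k, hk⟩ := odd_sq t ht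
  have h1 : pp t m = -t * rr t m - 4 * ((-t * rr t m) / 4) := by
    unfold pp
    have := Int.emod_add_mul_ediv (-t * rr t m) 4
    linarith
  have h2 : rr t m + t * pp t m = 4 * (-k * rr t m - t * ((-t * rr t m) / 4)) := by
    rw [h1]
    linear_combination (- rr t m) * hk
  have h3 : rr t (m + 1) = (rr t m + t * pp t m) / 4 := rfl
  rw [h3, h2, Int.mul_ediv_cancel_left _ (by norm_num)]

theorem cc_eq (t : ℤ) (ht : t % 2 = 1) (m : ℕ) : t * cc t m = 1 + 4 ^ m * rr t m := by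
  induction m with
  | zero => simp [cc, rr]
  | succ m ih =>
    have h := rr_step t ht m
    simp only [cc]
    rw [pow_succ]
    linear_combination ih - 4 ^ m * h

theorem pp_zero (t : ℤ) : pp t 0 = t % 4 := by
  simp [pp, rr]

theorem qd_odd (t : ℤ) (m : ℕ) : (qd t m - pp t m) % 2 = 1 := by
  unfold qd
  have : 0 ≤ pp t m := Int.emod_nonneg _ (by norm_num)
  split_ifs with h <;> omega

theorem rr_not_dvd (t : ℤ) (ht : t % 2 = 1) (ht3 : 3 ≤ |t|) (m : ℕ) (n : ℤ) :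
    2 * rr t m + n * t ≠ 0 := by
  intro h
  have h1 := cc_eq t ht m
  have h2 : t ∣ 2 := by
    refine ⟨2 * cc t m + 4 ^ m * n, ?_⟩
    linear_combination (-2 : ℤ) * h1 - 4 ^ m * h
  have h3 : |t| ≤ 2 := Int.le_of_dvd (by norm_num) ((abs_dvd _ _).2 h2)
  omega

/-- Numbers `4^j * odd`. -/
def Z4 (z : ℤ) : Prop := ∃ j : ℕ, ∃ m : ℤ, z = 4 ^ j * (2 * m + 1)

theorem Z4_odd (z : ℤ) (h : z % 2 = 1) : Z4 z := ⟨0, z / 2, by rw [pow_zero, one_mul]; omega⟩

theorem Z4_mul (k : ℕ) (z : ℤ) (h : Z4 z) : Z4 (4 ^ k * z) := by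
  obtain ⟨j, m, rfl⟩ := h
  exact ⟨k + j, m, by rw [pow_add]; ring⟩

theorem Z4_neg (z : ℤ) (h : Z4 z) : Z4 (-z) := by
  obtain ⟨j, m, rfl⟩ := h
  exact ⟨j, -m - 1, by ring⟩

theorem Z4_mul_odd (k : ℕ) (z : ℤ) (h : z % 2 = 1) : Z4 (4 ^ k * z) := Z4_mul k z (Z4_odd z h)

theorem ehat_Z4 (z : ℤ) (h : Z4 z) : ehat mu z = 0 := by
  obtain ⟨j, m, rfl⟩ := h
  have h1 : ‖ehat mu (((4 ^ j * (2 * m + 1) : ℤ) : ℝ))‖ ^ 2 = 0 := by
    rw [ehat_norm (j + 1)]
    simp only [W]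
    have : qq (((4 ^ j * (2 * m + 1) : ℤ) : ℝ) / 4 ^ (j + 1)) = 0 := by
      unfold qq
      have e : 2 * π * (((4 ^ j * (2 * m + 1) : ℤ) : ℝ) / 4 ^ (j + 1)) = (2 * m + 1) * π / 2 := by
        push_cast
        rw [pow_succ]
        field_simp
        ring
      rw [e]
      have : Real.cos ((2 * m + 1) * π / 2) = 0 := Real.cos_eq_zero_iff.2 ⟨m, rfl⟩
      rw [this]; ring
    rw [this]; ring
  rw [← norm_eq_zero]
  exact pow_eq_zero_iff (two_ne_zero) |>.1 h1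

theorem zero_imp (t : ℝ) (h : ehat mu t = 0) : ∃ z : ℤ, Z4 z ∧ t = z := by
  have h1 : ∃ k, W k t = 0 := by
    by_contra hcon
    push Not at hcon
    have h2 := ehat_tendsto t
    have h4 : ∀ᶠ k in atTop, (0 : ℝ) < ‖ehat mu (t / 4 ^ k)‖ ^ 2 :=
      h2.eventually (lt_mem_nhds (by norm_num))
    obtain ⟨k, hk⟩ := h4.exists
    have h3 := ehat_norm k t
    rw [h] at h3
    simp only [norm_zero, ne_eq, OfNat.ofNat_ne_zero, not_false_eq_true, zero_pow] at h3
    rcases mul_eq_zero.1 h3.symm with h5 | h5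
    · exact hcon k h5
    · exact hk.ne' h5
  have h2 : ∀ k, W k t = 0 → ∃ j, qq (t / 4 ^ (j + 1)) = 0 := by
    intro k
    induction k with
    | zero => intro h; simp [W] at h
    | succ k ih =>
      intro h
      simp only [W] at h
      rcases mul_eq_zero.1 h with h5 | h5
      · exact ih h5
      · exact ⟨k, h5⟩
  obtain ⟨k, hk⟩ := h1
  obtain ⟨j, hj⟩ := h2 k hk
  unfold qq at hj
  have h3 : Real.cos (2 * π * (t / 4 ^ (j + 1))) = 0 := by
    exact pow_eq_zero_iff (two_ne_zero) |>.1 hj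
  obtain ⟨m, hm⟩ := Real.cos_eq_zero_iff.1 h3
  refine ⟨4 ^ j * (2 * m + 1), ⟨j, m, rfl⟩, ?_⟩
  have hpi := Real.pi_ne_zero
  rw [pow_succ] at hm
  push_cast
  field_simp at hm
  linarith

theorem g_orth (s n m : ℕ) (hs : n + m = s) (h : n ≠ m) : Z4 ((g n : ℤ) - g m) := by
  induction s using Nat.strong_induction_on generalizing n m with
  | _ s ih =>
    have en : n = 2 * (n / 2) + n % 2 := by omega
    have em : m = 2 * (m / 2) + m % 2 := by omega
    have hcn : n % 2 < 2 := Nat.mod_lt _ (by norm_num)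
    have hcm : m % 2 < 2 := Nat.mod_lt _ (by norm_num)
    have hgn : g n = 4 * g (n / 2) + n % 2 := by
      conv_lhs => rw [en, g_step _ _ hcn]
    have hgm : g m = 4 * g (m / 2) + m % 2 := by
      conv_lhs => rw [em, g_step _ _ hcm]
    by_cases hc : n % 2 = m % 2
    · have hne : n / 2 ≠ m / 2 := by omega
      have := ih (n / 2 + m / 2) (by omega) (n / 2) (m / 2) rfl hne
      have e : (g n : ℤ) - g m = 4 ^ 1 * ((g (n / 2) : ℤ) - g (m / 2)) := by
        rw [hgn, hgm, hc]; push_cast; ring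
      rw [e]
      exact Z4_mul 1 _ this
    · apply Z4_odd
      rw [hgn, hgm]
      push_cast
      omega

theorem cc_add (t : ℤ) (a b : ℕ) : ∃ e : ℤ, cc t (a + b) = cc t a + 4 ^ a * e := by
  induction b with
  | zero => exact ⟨0, by simp⟩
  | succ b ih =>
    obtain ⟨e, he⟩ := ih
    refine ⟨e + 4 ^ b * pp t (a + b), ?_⟩
    rw [← add_assoc]
    simp only [cc]
    rw [he, pow_add]; ring

/-- The numbers in the special pieces. -/
def aa (t : ℤ) (m n : ℕ) : ℤ := cc t (m + 1) + 4 ^ (m + 1) * qd t (m + 1) + 4 ^ (m + 2) * (g n : ℤ)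

theorem aa_odd (t : ℤ) (ht : t % 2 = 1) (m n : ℕ) : aa t m n % 2 = 1 := by
  obtain ⟨e, he⟩ := cc_add t 1 m
  rw [add_comm 1 m] at he
  have h1 : cc t 1 = t % 4 := by
    have := pp_zero t
    simp [cc, this]
  unfold aa
  rw [he, h1]
  have e1 : t % 4 + 4 ^ 1 * e + 4 ^ (m + 1) * qd t (m + 1) + 4 ^ (m + 2) * (g n : ℤ)
      = t % 4 + 2 * (2 * e + 2 * 4 ^ m * qd t (m + 1) + 8 * 4 ^ m * (g n : ℤ)) := by
    rw [pow_succ, pow_succ, pow_succ]; ring
  rw [e1]
  omega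

theorem aa_orth_lt (t : ℤ) (m m' n n' : ℕ) (h : m < m') : Z4 (aa t m n - aa t m' n') := by
  obtain ⟨e, he⟩ := cc_add t (m + 2) (m' - m - 1)
  have hm : m + 2 + (m' - m - 1) = m' + 1 := by omega
  rw [hm] at he
  have hc : cc t (m + 2) = cc t (m + 1) + 4 ^ (m + 1) * pp t (m + 1) := rfl
  obtain ⟨b, hb⟩ : ∃ b, m' = m + 1 + b := ⟨m' - m - 1, by omega⟩
  have h1 : aa t m n - aa t m' n' = 4 ^ (m + 1) * ((qd t (m + 1) - pp t (m + 1)) + 2 *
      (2 * (g n : ℤ) - 2 * e - 2 * 4 ^ b * qd t (m' + 1) - 8 * 4 ^ b * (g n' : ℤ))) := by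
    unfold aa
    rw [he, hc]
    have e1 : (4 : ℤ) ^ (m' + 1) = 4 ^ (m + 1) * 4 * 4 ^ b := by
      rw [hb]; rw [← pow_succ, ← pow_add]; congr 1; omega
    have e2 : (4 : ℤ) ^ (m' + 2) = 4 ^ (m + 1) * 16 * 4 ^ b := by
      have : (4 : ℤ) ^ (m' + 2) = 4 ^ (m' + 1) * 4 := pow_succ _ _
      rw [this, e1]; ring
    have e3 : (4 : ℤ) ^ (m + 2) = 4 ^ (m + 1) * 4 := pow_succ _ _
    rw [e1, e2, e3]
    ring
  rw [h1]
  apply Z4_mul_odd
  have := qd_odd t (m + 1)
  omega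

theorem aa_orth (t : ℤ) (m m' n n' : ℕ) (h : (m, n) ≠ (m', n')) : Z4 (aa t m n - aa t m' n') := by
  rcases lt_trichotomy m m' with h1 | h1 | h1
  · exact aa_orth_lt t m m' n n' h1
  · subst h1
    have hn : n ≠ n' := fun hh => h (by rw [hh])
    have e : aa t m n - aa t m n' = 4 ^ (m + 2) * ((g n : ℤ) - g n') := by
      unfold aa; ring
    rw [e]
    exact Z4_mul _ _ (g_orth _ n n' rfl hn)
  · have := Z4_neg _ (aa_orth_lt t m' m n' n h1)
    rwa [neg_sub] at this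

/-- Enumeration of the odd integers of modulus at least three. -/
def ts (s : ℕ) : ℤ := if s % 2 = 0 then 2 * (s / 2 : ℕ) + 3 else -(2 * (s / 2 : ℕ) + 3)

theorem ts_odd (s : ℕ) : ts s % 2 = 1 := by
  unfold ts; split_ifs <;> omega

theorem ts_ge (s : ℕ) : 3 ≤ |ts s| := by
  unfold ts
  split_ifs
  · rw [abs_of_nonneg (by positivity)]; omega
  · rw [abs_neg, abs_of_nonneg (by positivity)]; omega

theorem ts_surj (t : ℤ) (h : t % 2 = 1) (h3 : 3 ≤ |t|) : ∃ s, ts s = t := by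
  rcases le_or_gt 0 t with h0 | h0
  · rw [abs_of_nonneg h0] at h3
    refine ⟨(t - 3).toNat, ?_⟩
    unfold ts
    have : (t - 3).toNat % 2 = 0 := by omega
    rw [if_pos this]
    omega
  · rw [abs_of_neg h0] at h3
    refine ⟨(-t - 3).toNat + 1, ?_⟩
    unfold ts
    have : ¬ ((-t - 3).toNat + 1) % 2 = 0 := by omega
    rw [if_neg this]
    omega

/-- Index set of the spectrum. -/
abbrev Ind : Type := Unit ⊕ (ℕ ⊕ (ℕ × ℕ × ℕ))

/-- The spectrum. -/
def lam : Ind → ℤ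
  | Sum.inl _ => 0
  | Sum.inr (Sum.inl n) => 1 + 4 * g n
  | Sum.inr (Sum.inr (s, m, n)) => 4 ^ (s + 1) * aa (ts s) m n

theorem lam_orth_aux (s s' m m' n n' : ℕ) (h : s < s') :
    Z4 (4 ^ (s + 1) * aa (ts s) m n - 4 ^ (s' + 1) * aa (ts s') m' n') := by
  obtain ⟨b, hb⟩ : ∃ b, s' = s + 1 + b := ⟨s' - s - 1, by omega⟩
  have e : 4 ^ (s + 1) * aa (ts s) m n - 4 ^ (s' + 1) * aa (ts s') m' n'
      = 4 ^ (s + 1) * (aa (ts s) m n + 2 * (- 2 * 4 ^ b * aa (ts s') m' n')) := by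
    have e1 : (4 : ℤ) ^ (s' + 1) = 4 ^ (s + 1) * 4 * 4 ^ b := by
      rw [hb]; rw [← pow_succ, ← pow_add]; congr 1; omega
    rw [e1]; ring
  rw [e]
  apply Z4_mul_odd
  have := aa_odd (ts s) (ts_odd s) m n
  omega

theorem pow_succ_even (s : ℕ) (a : ℤ) : (4 ^ (s + 1) * a) % 2 = 0 := by
  have : (4 : ℤ) ^ (s + 1) * a = 2 * (2 * 4 ^ s * a) := by rw [pow_succ]; ring
  omega

theorem lam_orth (i j : Ind) (h : i ≠ j) : Z4 (lam i - lam j) := by
  rcases i with i | n | ⟨s, m, n⟩ <;> rcases j with j | n' | ⟨s', m', n'⟩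
  · exact absurd rfl h
  · apply Z4_odd; simp only [lam]; omega
  · simp only [lam, zero_sub]
    exact Z4_neg _ (Z4_mul_odd _ _ (aa_odd _ (ts_odd _) _ _))
  · apply Z4_odd; simp only [lam]; omega
  · have hn : n ≠ n' := fun hh => h (by rw [hh])
    have e : lam (Sum.inr (Sum.inl n)) - lam (Sum.inr (Sum.inl n'))
      = 4 ^ 1 * ((g n : ℤ) - g n') := by simp only [lam]; ring
    rw [e]
    exact Z4_mul _ _ (g_orth _ n n' rfl hn)
  · apply Z4_odd
    simp only [lam]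
    have := pow_succ_even s' (aa (ts s') m' n')
    omega
  · simp only [lam, sub_zero]
    exact Z4_mul_odd _ _ (aa_odd _ (ts_odd _) _ _)
  · apply Z4_odd
    simp only [lam]
    have := pow_succ_even s (aa (ts s) m n)
    omega
  · simp only [lam]
    rcases lt_trichotomy s s' with h1 | h1 | h1
    · exact lam_orth_aux s s' m m' n n' h1
    · subst h1
      have hne : (m, n) ≠ (m', n') := by
        intro hh
        apply h
        rw [Prod.mk.injEq] at hh
        rw [hh.1, hh.2]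
      rw [← mul_sub]
      exact Z4_mul _ _ (aa_orth _ m m' n n' hne)
    · have := Z4_neg _ (lam_orth_aux s' s m' m n' n h1)
      rwa [neg_sub] at this

/-- The obstruction to completeness of `t Λ`. -/
theorem obstruction (s : ℕ) (i : Ind) : Z4 (ts s * lam i - 4 ^ (s + 1)) := by
  rcases i with i | n | ⟨s', m, n⟩
  · have e : ts s * lam (Sum.inl i) - 4 ^ (s + 1) = -(4 ^ (s + 1) * 1) := by simp only [lam]; ring
    rw [e]
    exact Z4_neg _ (Z4_mul_odd _ _ (by norm_num))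
  · apply Z4_odd
    simp only [lam]
    have h1 := pow_succ_even s 1
    have h2 := ts_odd s
    have h3 : (ts s * (1 + 4 * (g n : ℤ))) = ts s + 2 * (2 * ts s * g n) := by ring
    omega
  · simp only [lam]
    rcases lt_trichotomy s' s with h1 | h1 | h1
    · obtain ⟨b, hb⟩ : ∃ b, s = s' + 1 + b := ⟨s - s' - 1, by omega⟩
      have e : ts s * (4 ^ (s' + 1) * aa (ts s') m n) - 4 ^ (s + 1)
          = 4 ^ (s' + 1) * (ts s * aa (ts s') m n + 2 * (- 2 * 4 ^ b)) := by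
        have e1 : (4 : ℤ) ^ (s + 1) = 4 ^ (s' + 1) * 4 * 4 ^ b := by
          conv_lhs => rw [hb]
          rw [← pow_succ, ← pow_add]; congr 1; omega
        rw [e1]; ring
      rw [e]
      apply Z4_mul_odd
      have h2 := aa_odd (ts s') (ts_odd s') m n
      have h3 := ts_odd s
      have h4 : (ts s * aa (ts s') m n) % 2 = 1 := by
        rw [Int.mul_emod, h2, h3]; norm_num
      omega
    · subst h1
      have e : ts s' * (4 ^ (s' + 1) * aa (ts s') m n) - 4 ^ (s' + 1)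
          = 4 ^ (s' + 1 + (m + 1)) * (rr (ts s') (m + 1) + ts s' * pp (ts s') (m + 1)
            + ts s' * (qd (ts s') (m + 1) - pp (ts s') (m + 1)) + 4 * (ts s' * g n)) := by
        have h1 := cc_eq (ts s') (ts_odd s') (m + 1)
        unfold aa
        rw [pow_add 4 (s' + 1) (m + 1)]
        have e3 : (4 : ℤ) ^ (m + 2) = 4 ^ (m + 1) * 4 := pow_succ _ _
        rw [e3]
        linear_combination (4 ^ (s' + 1)) * h1
      rw [e]
      apply Z4_mul_odd
      have h2 := rr_step (ts s') (ts_odd s') (m + 1)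
      rw [← h2]
      have h3 := qd_odd (ts s') (m + 1)
      have h4 := ts_odd s'
      have h5 : (ts s' * (qd (ts s') (m + 1) - pp (ts s') (m + 1))) % 2 = 1 := by
        rw [Int.mul_emod, h3, h4]; norm_num
      omega
    · obtain ⟨b, hb⟩ : ∃ b, s' = s + 1 + b := ⟨s' - s - 1, by omega⟩
      have e : ts s * (4 ^ (s' + 1) * aa (ts s') m n) - 4 ^ (s + 1)
          = 4 ^ (s + 1) * (2 * (2 * 4 ^ b * ts s * aa (ts s') m n) - 1) := by
        have e1 : (4 : ℤ) ^ (s' + 1) = 4 ^ (s + 1) * 4 * 4 ^ b := by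
          conv_lhs => rw [hb]
          rw [← pow_succ, ← pow_add]; congr 1; omega
        rw [e1]; ring
      rw [e]
      apply Z4_mul_odd
      omega

end Pool.Agent.X125.Spec.Four
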