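import Pool.Agent.X125.Spec.FourB

/-! A spectrum of the `1/4`-Cantor measure with few complete numbers, completeness. -/

set_option autoImplicit false
open MeasureTheory Filter Topology
open scoped ENNReal Real

namespace Pool.Agent.X125.Spec.Four

/-- `cos²(πx) ≤ 1 - 4δ²` when `x` is at distance at least `δ` from the integers. -/
theorem cos_sq_le_of_dist (x δ : ℝ) (hδ : 0 ≤ δ) (h : ∀ n : ℤ, δ ≤ |x - n|) :
    Real.cos (π * x) ^ 2 ≤ 1 - 4 * δ ^ 2 := by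
  have h1 : |Real.sin (π * x)| = |Real.sin (π * (x - round x))| := by
    have e : π * x = π * (x - round x) + ((round x : ℤ) : ℝ) * π := by ring
    rw [e, Real.sin_add_int_mul_pi, abs_mul, abs_zpow]
    simp
  have h2 : |x - round x| ≤ 1 / 2 := abs_sub_round x
  have h3 : |π * (x - round x)| ≤ π / 2 := by
    rw [abs_mul, abs_of_pos Real.pi_pos]
    calc π * |x - round x| ≤ π * (1 / 2) := mul_le_mul_of_nonneg_left h2 Real.pi_pos.le
      _ = π / 2 := by ring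
  have h4 := Real.mul_abs_le_abs_sin h3
  have h5 : 2 * δ ≤ |Real.sin (π * x)| := by
    rw [h1]
    refine le_trans ?_ h4
    rw [abs_mul, abs_of_pos Real.pi_pos]
    have := h (round x)
    calc 2 * δ ≤ 2 * |x - round x| := by linarith
      _ = 2 / π * (π * |x - round x|) := by
        have := Real.pi_ne_zero
        field_simp
  have h6 : (2 * δ) ^ 2 ≤ Real.sin (π * x) ^ 2 := by
    rw [← sq_abs (Real.sin _)]
    exact pow_le_pow_left₀ (by positivity) h5 2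
  have := Real.sin_sq_add_cos_sq (π * x)
  nlinarith

theorem tendsto_zero_of_ratio (u : ℕ → ℝ) (hu : ∀ m, 0 ≤ u m) (ρ : ℝ) (hρ0 : 0 ≤ ρ) (hρ : ρ < 1)
    (h : ∀ᶠ m in atTop, u (m + 1) ≤ ρ * u m) : Tendsto u atTop (𝓝 0) := by
  obtain ⟨K, hK⟩ := eventually_atTop.1 h
  have h1 : ∀ n, u (n + K) ≤ ρ ^ n * u K := by
    intro n
    induction n with
    | zero => simp
    | succ n ih =>
      have h2 := hK (n + K) (by omega)
      have e : n + 1 + K = n + K + 1 := by ring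
      rw [e]
      calc u (n + K + 1) ≤ ρ * u (n + K) := h2
        _ ≤ ρ * (ρ ^ n * u K) := mul_le_mul_of_nonneg_left ih hρ0
        _ = ρ ^ (n + 1) * u K := by rw [pow_succ]; ring
  have h3 : Tendsto (fun n => ρ ^ n * u K) atTop (𝓝 0) := by
    have := (tendsto_pow_atTop_nhds_zero_of_lt_one hρ0 hρ).mul_const (u K)
    rwa [zero_mul] at this
  rw [← tendsto_add_atTop_iff_nat K]
  exact squeeze_zero (fun n => hu _) h1 h3

theorem W_succ (k : ℕ) (y : ℝ) : W (k + 1) y = W k y * qq (y / 4 ^ (k + 1)) := rfl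

/-- Weights along the special path. -/
noncomputable def up (ξ : ℝ) (s m : ℕ) : ℝ :=
  W (s + 1 + (m + 1)) (ξ - ((4 ^ (s + 1) * cc (ts s) (m + 1) : ℤ) : ℝ))

theorem up_step (ξ : ℝ) (s m : ℕ) : up ξ s (m + 1) = up ξ s m
    * qq ((ξ - ((4 ^ (s + 1) * cc (ts s) (m + 2) : ℤ) : ℝ)) / 4 ^ (s + 1 + (m + 1) + 1)) := by
  unfold up
  have e : s + 1 + (m + 1 + 1) = (s + 1 + (m + 1)) + 1 := by ring
  rw [e, W_succ]
  congr 1
  have e2 : ξ - ((4 ^ (s + 1) * cc (ts s) (m + 1 + 1) : ℤ) : ℝ)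
      = (ξ - ((4 ^ (s + 1) * cc (ts s) (m + 1) : ℤ) : ℝ))
        + 4 ^ (s + 1 + (m + 1)) * ((- pp (ts s) (m + 1) : ℤ) : ℝ) := by
    simp only [cc]
    push_cast
    rw [pow_add 4 (s + 1) (m + 1)]
    ring
  rw [e2, W_per]

theorem up_tendsto (ξ : ℝ) (s : ℕ) : Tendsto (up ξ s) atTop (𝓝 0) := by
  set t : ℤ := ts s with ht
  have hto : t % 2 = 1 := ts_odd s
  have ht3 : 3 ≤ |t| := ts_ge s
  have htR : (3 : ℝ) ≤ |(t : ℝ)| := by
    have : ((3 : ℤ) : ℝ) ≤ ((|t| : ℤ) : ℝ) := by exact_mod_cast ht3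
    rw [Int.cast_abs] at this
    exact_mod_cast this
  have htpos : 0 < |(t : ℝ)| := by linarith
  set δ : ℝ := 1 / (2 * |(t : ℝ)|) with hδ
  have hδ0 : 0 < δ := by positivity
  have hδ1 : δ ≤ 1 / 6 := by
    rw [hδ]
    apply one_div_le_one_div_of_le (by norm_num)
    linarith
  apply tendsto_zero_of_ratio (up ξ s) (fun m => W_nonneg _ _) (1 - 4 * δ ^ 2)
  · nlinarith
  · nlinarith
  · -- eventually the factor is small
    have hlim : Tendsto (fun m : ℕ => 2 * |(t : ℝ)| * |ξ| / 4 ^ (s + 1 + (m + 1) + 1)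
        + 2 / 4 ^ (m + 2)) atTop (𝓝 0) := by
      have h0 : Tendsto (fun m : ℕ => ((4 : ℝ)⁻¹) ^ m) atTop (𝓝 0) :=
        tendsto_pow_atTop_nhds_zero_of_lt_one (by norm_num) (by norm_num)
      have h1 : Tendsto (fun m : ℕ => (2 * |(t : ℝ)| * |ξ| / 4 ^ (s + 3)) * ((4 : ℝ)⁻¹) ^ m
          + (1 / 8) * ((4 : ℝ)⁻¹) ^ m) atTop (𝓝 0) := by
        have := (h0.const_mul (2 * |(t : ℝ)| * |ξ| / 4 ^ (s + 3))).add (h0.const_mul (1 / 8))
        simpa using this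
      refine h1.congr fun m => ?_
      have e1 : (4 : ℝ) ^ (s + 1 + (m + 1) + 1) = 4 ^ (s + 3) * 4 ^ m := by
        rw [← pow_add]; congr 1; ring
      have e2 : (4 : ℝ) ^ (m + 2) = 16 * 4 ^ m := by rw [pow_add]; norm_num; ring
      rw [e1, e2, inv_pow]
      field_simp
      ring
    have hev := hlim.eventually (gt_mem_nhds (show (0 : ℝ) < 1 / 2 by norm_num))
    filter_upwards [hev] with m hm
    rw [up_step, mul_comm]
    apply mul_le_mul_of_nonneg_right _ (W_nonneg _ _)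
    set x : ℝ := 2 * ((ξ - ((4 ^ (s + 1) * cc t (m + 2) : ℤ) : ℝ)) / 4 ^ (s + 1 + (m + 1) + 1))
      with hx
    have hq : qq ((ξ - ((4 ^ (s + 1) * cc t (m + 2) : ℤ) : ℝ)) / 4 ^ (s + 1 + (m + 1) + 1))
        = Real.cos (π * x) ^ 2 := by
      unfold qq
      rw [hx]
      congr 2
      ring
    rw [hq]
    apply cos_sq_le_of_dist x δ hδ0.le
    intro n
    -- t * (x - n) = -(2 r + n t) + error
    have hcc := cc_eq t hto (m + 2)
    have hccR : (t : ℝ) * (cc t (m + 2) : ℝ) = 1 + 4 ^ (m + 2) * (rr t (m + 2) : ℝ) := by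
      exact_mod_cast hcc
    have hpow : (4 : ℝ) ^ (s + 1 + (m + 1) + 1) = 4 ^ (s + 1) * 4 ^ (m + 2) := by
      rw [← pow_add]; congr 1
    have hmain : (t : ℝ) * (x - n) = -(((2 * rr t (m + 2) + n * t : ℤ)) : ℝ)
        + (2 * t * ξ / 4 ^ (s + 1 + (m + 1) + 1) - 2 / 4 ^ (m + 2)) := by
      rw [hx, hpow]
      push_cast
      have h4a : (4 : ℝ) ^ (s + 1) ≠ 0 := by positivity
      have h4b : (4 : ℝ) ^ (m + 2) ≠ 0 := by positivity
      field_simp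
      linear_combination (-2 * 4 ^ (s + 1)) * hccR
    have hint : (1 : ℝ) ≤ |(((2 * rr t (m + 2) + n * t : ℤ)) : ℝ)| := by
      have := rr_not_dvd t hto ht3 (m + 2) n
      have h1 : (1 : ℤ) ≤ |2 * rr t (m + 2) + n * t| := Int.one_le_abs this
      exact_mod_cast h1
    have herr : |2 * t * ξ / 4 ^ (s + 1 + (m + 1) + 1) - 2 / 4 ^ (m + 2)| ≤ 1 / 2 := by
      calc |2 * t * ξ / 4 ^ (s + 1 + (m + 1) + 1) - 2 / 4 ^ (m + 2)|
          ≤ |2 * t * ξ / 4 ^ (s + 1 + (m + 1) + 1)| + |(2 : ℝ) / 4 ^ (m + 2)| := abs_sub _ _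
        _ = 2 * |(t : ℝ)| * |ξ| / 4 ^ (s + 1 + (m + 1) + 1) + 2 / 4 ^ (m + 2) := by
          rw [abs_div, abs_div, abs_mul, abs_mul]
          rw [abs_of_pos (show (0 : ℝ) < 4 ^ (s + 1 + (m + 1) + 1) by positivity),
            abs_of_pos (show (0 : ℝ) < 4 ^ (m + 2) by positivity),
            abs_of_pos (show (0 : ℝ) < 2 by norm_num)]
        _ ≤ 1 / 2 := hm.le
    have h1 : 1 / 2 ≤ |(t : ℝ) * (x - n)| := by
      rw [hmain]
      have h2 := abs_sub_abs_le_abs_sub (((2 * rr t (m + 2) + n * t : ℤ)) : ℝ)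
        (2 * t * ξ / 4 ^ (s + 1 + (m + 1) + 1) - 2 / 4 ^ (m + 2))
      have h3 : |-(((2 * rr t (m + 2) + n * t : ℤ)) : ℝ)
        + (2 * t * ξ / 4 ^ (s + 1 + (m + 1) + 1) - 2 / 4 ^ (m + 2))|
        = |(((2 * rr t (m + 2) + n * t : ℤ)) : ℝ)
        - (2 * t * ξ / 4 ^ (s + 1 + (m + 1) + 1) - 2 / 4 ^ (m + 2))| := by
        rw [← abs_neg]; congr 1; ring
      rw [h3]
      linarith
    rw [abs_mul] at h1
    rw [hδ, div_le_iff₀ (by positivity)]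
    linarith

theorem special_sum (ξ : ℝ) (s : ℕ) : ENNReal.ofReal (up ξ s 0)
    ≤ ∑' m : ℕ, ∑' n : ℕ, ENNReal.ofReal (‖ehat mu (ξ - (lam (Sum.inr (Sum.inr (s, m, n))) : ℝ))‖ ^ 2) := by
  set a : ℕ → ℝ := fun m => W (s + 1 + (m + 1) + 1)
    (ξ - ((4 ^ (s + 1) * (cc (ts s) (m + 1) + 4 ^ (m + 1) * qd (ts s) (m + 1)) : ℤ) : ℝ)) with ha
  have h1 := telescope a (up ξ s) 0 (fun m => W_nonneg _ _) ?_ (up_tendsto ξ s)
  · rw [sub_zero] at h1
    refine h1.trans ?_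
    apply ENNReal.tsum_le_tsum
    intro m
    refine (piece (s + 1 + (m + 1) + 1) ξ
      (4 ^ (s + 1) * (cc (ts s) (m + 1) + 4 ^ (m + 1) * qd (ts s) (m + 1)))).trans ?_
    apply le_of_eq
    congr 1
    funext n
    congr 5
    simp only [lam, aa]
    have e : (4 : ℤ) ^ (s + 1 + (m + 1) + 1) = 4 ^ (s + 1) * 4 ^ (m + 2) := by
      rw [← pow_add]; congr 1
    rw [e]; ring
  · intro m
    have h2 := W_split (s + 1 + (m + 1)) (ξ - ((4 ^ (s + 1) * cc (ts s) (m + 1) : ℤ) : ℝ))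
      (qd (ts s) (m + 1)) (pp (ts s) (m + 1)) (qd_odd _ _)
    have e1 : ξ - ((4 ^ (s + 1) * cc (ts s) (m + 1) : ℤ) : ℝ)
        - 4 ^ (s + 1 + (m + 1)) * ((qd (ts s) (m + 1) : ℤ) : ℝ)
        = ξ - ((4 ^ (s + 1) * (cc (ts s) (m + 1) + 4 ^ (m + 1) * qd (ts s) (m + 1)) : ℤ) : ℝ) := by
      push_cast
      rw [pow_add 4 (s + 1) (m + 1)]; ring
    have e2 : ξ - ((4 ^ (s + 1) * cc (ts s) (m + 1) : ℤ) : ℝ)
        - 4 ^ (s + 1 + (m + 1)) * ((pp (ts s) (m + 1) : ℤ) : ℝ)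
        = ξ - ((4 ^ (s + 1) * cc (ts s) (m + 1 + 1) : ℤ) : ℝ) := by
      simp only [cc]
      push_cast
      rw [pow_add 4 (s + 1) (m + 1)]; ring
    rw [e1, e2] at h2
    have e3 : up ξ s (m + 1) = W (s + 1 + (m + 1) + 1)
      (ξ - ((4 ^ (s + 1) * cc (ts s) (m + 1 + 1) : ℤ) : ℝ)) := by
      unfold up
      rfl
    have e4 : up ξ s m = W (s + 1 + (m + 1)) (ξ - ((4 ^ (s + 1) * cc (ts s) (m + 1) : ℤ) : ℝ)) := rfl
    rw [e3, e4, ← h2]
    ring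

theorem up_zero (ξ : ℝ) (s : ℕ) : up ξ s 0 = W (s + 1) ξ - W (s + 2) ξ := by
  have hp : cc (ts s) 1 = ts s % 4 := by
    have := pp_zero (ts s)
    simp [cc, this]
  have h2 := W_split (s + 1) ξ (ts s % 4) 0 (by have := ts_odd s; omega)
  unfold up
  rw [zero_add, hp, ← h2]
  push_cast
  ring_nf

theorem total (ξ : ℝ) : 1 ≤ ∑' i : Ind, ENNReal.ofReal (‖ehat mu (ξ - (lam i : ℝ))‖ ^ 2) := by
  rw [Summable.tsum_sum ENNReal.summable ENNReal.summable,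
    Summable.tsum_sum ENNReal.summable ENNReal.summable, ENNReal.tsum_prod']
  have h1 : ∑' i : Unit, ENNReal.ofReal (‖ehat mu (ξ - (lam (Sum.inl i) : ℝ))‖ ^ 2)
      = ENNReal.ofReal (‖ehat mu ξ‖ ^ 2) := by
    rw [tsum_fintype]
    simp [lam]
  have h2 : ENNReal.ofReal (W 1 (ξ - 1)) ≤ ∑' n : ℕ, ENNReal.ofReal
      (‖ehat mu (ξ - (lam (Sum.inr (Sum.inl n)) : ℝ))‖ ^ 2) := by
    have := piece 1 ξ 1
    simp only [pow_one, Int.cast_one] at this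
    simp only [lam]
    exact this
  have h3 : ENNReal.ofReal (W 1 ξ - ‖ehat mu ξ‖ ^ 2) ≤ ∑' s : ℕ, ∑' p : ℕ × ℕ, ENNReal.ofReal
      (‖ehat mu (ξ - (lam (Sum.inr (Sum.inr (s, p))) : ℝ))‖ ^ 2) := by
    have h4 := telescope (fun s => up ξ s 0) (fun s => W (s + 1) ξ) (‖ehat mu ξ‖ ^ 2)
      (fun s => W_nonneg _ _) (fun s => up_zero ξ s)
      ((tendsto_add_atTop_iff_nat 1).2 (W_tendsto ξ))
    refine h4.trans ?_
    apply ENNReal.tsum_le_tsum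
    intro s
    rw [ENNReal.tsum_prod']
    exact special_sum ξ s
  have h5 : W 1 (ξ - 1) + W 1 ξ = 1 := by
    have := W_split 0 ξ 1 0 (by norm_num)
    simpa [W] using this
  have hW : ‖ehat mu ξ‖ ^ 2 ≤ W 1 ξ := by
    rw [ehat_norm 1 ξ]
    have hle : ‖ehat mu (ξ / 4 ^ 1)‖ ≤ 1 := by
      unfold ehat
      calc ‖∫ x, ex (ξ / 4 ^ 1) x ∂mu‖ ≤ ∫ x, ‖ex (ξ / 4 ^ 1) x‖ ∂mu := norm_integral_le_integral_norm _
        _ = 1 := by simp [ex_norm]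
    have : ‖ehat mu (ξ / 4 ^ 1)‖ ^ 2 ≤ 1 := pow_le_one₀ (norm_nonneg _) hle
    calc W 1 ξ * ‖ehat mu (ξ / 4 ^ 1)‖ ^ 2 ≤ W 1 ξ * 1 :=
          mul_le_mul_of_nonneg_left this (W_nonneg _ _)
      _ = _ := mul_one _
  rw [h1]
  calc (1 : ℝ≥0∞) = ENNReal.ofReal (‖ehat mu ξ‖ ^ 2 + (W 1 (ξ - 1) + (W 1 ξ - ‖ehat mu ξ‖ ^ 2))) := by
        rw [← ENNReal.ofReal_one]; congr 1; linarith
    _ = ENNReal.ofReal (‖ehat mu ξ‖ ^ 2) + (ENNReal.ofReal (W 1 (ξ - 1))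
        + ENNReal.ofReal (W 1 ξ - ‖ehat mu ξ‖ ^ 2)) := by
        rw [ENNReal.ofReal_add (by positivity) (add_nonneg (W_nonneg _ _) (by linarith)),
          ENNReal.ofReal_add (W_nonneg _ _) (by linarith)]
    _ ≤ _ := by gcongr

theorem parseval (ξ : ℝ) (ε : ℝ) (hε : 0 < ε) : ∃ F : Finset Ind,
    1 - ε ≤ ∑ i ∈ F, ‖ehat mu (ξ - (lam i : ℝ))‖ ^ 2 := by
  have h := total ξ
  have h1 : ENNReal.ofReal (1 - ε) < ∑' i : Ind, ENNReal.ofReal (‖ehat mu (ξ - (lam i : ℝ))‖ ^ 2) := by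
    refine lt_of_lt_of_le ?_ h
    rw [← ENNReal.ofReal_one]
    exact (ENNReal.ofReal_lt_ofReal_iff (by norm_num)).2 (by linarith)
  rw [ENNReal.tsum_eq_iSup_sum, lt_iSup_iff] at h1
  obtain ⟨F, hF⟩ := h1
  refine ⟨F, ?_⟩
  rw [← ENNReal.ofReal_sum_of_nonneg (fun i _ => by positivity)] at hF
  by_contra hcon
  push Not at hcon
  exact absurd (ENNReal.ofReal_le_ofReal hcon.le) (not_le.2 hF)

theorem orth (i j : Ind) (h : i ≠ j) : ehat mu ((lam i : ℝ) - lam j) = 0 := by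
  have := ehat_Z4 _ (lam_orth i j h)
  push_cast at this
  exact this

theorem complete (f : ℝ → ℂ) (hf : MemLp f 2 mu)
    (hfo : ∀ i, ∫ x, f x * ex (-(lam i : ℝ)) x ∂mu = 0) : f =ᵐ[mu] 0 :=
  complete_of_parseval mu (fun i => (lam i : ℝ)) orth parseval f hf hfo

end Pool.Agent.X125.Spec.Four
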