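import Pool.Agent.X125.Spec.Crit

/-! Existence of equal-weight self-similar measures on the line. -/

set_option autoImplicit false
open MeasureTheory Filter Topology
open scoped ENNReal Real

namespace Pool.Agent.X125.Spec

section Cons
variable {D : Type*} [MeasurableSpace D]

/-- Put a letter in front of a sequence. -/
def cons (p : D × (ℕ → D)) : ℕ → D := fun n => Nat.casesOn n p.1 p.2

theorem measurable_cons : Measurable (cons (D := D)) := by
  refine measurable_pi_iff.2 ?_
  intro n
  cases n with
  | zero => exact measurable_fst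
  | succ n => exact (measurable_pi_apply n).comp measurable_snd

theorem infinitePi_cons (U : Measure D) [IsProbabilityMeasure U] :
    (U.prod (Measure.infinitePi fun _ : ℕ => U)).map cons
      = Measure.infinitePi fun _ : ℕ => U := by
  apply Measure.eq_infinitePi
  intro s t ht
  classical
  set t' : ℕ → Set D := fun i => if i ∈ s then t i else Set.univ with ht'
  have hm : ∀ i, MeasurableSet (t' i) := by
    intro i
    by_cases h : i ∈ s
    · simp only [ht', h, if_true]; exact ht i
    · simp only [ht', h, if_false]; exact MeasurableSet.univ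
  obtain ⟨n, hn⟩ : ∃ n, s ⊆ Finset.range (n + 1) := by
    refine ⟨s.sup id, ?_⟩
    intro i hi
    simp only [Finset.mem_range]
    exact Nat.lt_succ_of_le (Finset.le_sup (f := id) hi)
  have e1 : Set.pi (↑s) t = Set.pi (↑(Finset.range (n + 1))) t' := by
    ext ω
    simp only [Set.mem_pi, Finset.mem_coe, ht']
    constructor
    · intro h i _
      by_cases hi : i ∈ s
      · simp only [hi, if_true]; exact h i hi
      · simp only [hi, if_false]; exact Set.mem_univ _
    · intro h i hi
      have := h i (hn hi)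
      simpa [hi] using this
  have e2 : cons ⁻¹' (Set.pi (↑(Finset.range (n + 1))) t')
      = (t' 0) ×ˢ (Set.pi (↑(Finset.range n)) (fun i => t' (i + 1))) := by
    ext ⟨a, ω⟩
    simp only [Set.mem_preimage, Set.mem_pi, Finset.mem_coe, Finset.mem_range, Set.mem_prod]
    constructor
    · intro h
      exact ⟨h 0 (by omega), fun i hi => h (i + 1) (by omega)⟩
    · rintro ⟨h0, h1⟩ i hi
      cases i with
      | zero => exact h0
      | succ i => exact h1 i (by omega)
  rw [e1, Measure.map_apply measurable_cons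
    (MeasurableSet.pi (Finset.countable_toSet _) (fun i _ => hm i)), e2, Measure.prod_prod,
    Measure.infinitePi_pi _ (fun i _ => hm _)]
  have e3 : ∏ i ∈ s, U (t i) = ∏ i ∈ Finset.range (n + 1), U (t' i) := by
    rw [← Finset.prod_subset hn]
    · apply Finset.prod_congr rfl
      intro i hi
      simp [ht', hi]
    · intro i _ hi
      simp [ht', hi]
  rw [e3, Finset.prod_range_succ', mul_comm]

end Cons

/-- Uniform probability on a nonempty finite type. -/
noncomputable def unif (D : Type) [Fintype D] [MeasurableSpace D] : Measure D :=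
  (Fintype.card D : ℝ≥0∞)⁻¹ • ∑ a : D, Measure.dirac a

instance unif_prob (D : Type) [Fintype D] [Nonempty D] [MeasurableSpace D] :
    IsProbabilityMeasure (unif D) := by
  constructor
  unfold unif
  rw [Measure.smul_apply, Measure.finsetSum_apply]
  simp only [measure_univ, Finset.sum_const, Finset.card_univ, nsmul_eq_mul, mul_one, smul_eq_mul]
  exact ENNReal.inv_mul_cancel (by simp) (by simp)

/-- The product measure. -/
noncomputable def iid (D : Type) [Fintype D] [Nonempty D] [MeasurableSpace D] : Measure (ℕ → D) :=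
  Measure.infinitePi fun _ : ℕ => unif D

instance iid_prob (D : Type) [Fintype D] [Nonempty D] [MeasurableSpace D] :
    IsProbabilityMeasure (iid D) := by
  unfold iid; infer_instance

theorem iid_split (D : Type) [Fintype D] [Nonempty D] [MeasurableSpace D] :
    iid D = (Fintype.card D : ℝ≥0∞)⁻¹ • ∑ a : D, (iid D).map (fun ω => cons (a, ω)) := by
  conv_lhs => unfold iid
  rw [← infinitePi_cons]
  ext s hs
  rw [Measure.map_apply measurable_cons hs, Measure.prod_apply (measurable_cons hs)]
  conv_lhs => enter [1]; unfold unif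
  rw [lintegral_smul_measure, lintegral_finsetSum_measure, Measure.smul_apply,
    Measure.finsetSum_apply]
  congr 1
  apply Finset.sum_congr rfl
  intro a _
  have hmm : Measurable (fun ω : ℕ → D => cons (a, ω)) :=
    measurable_cons.comp measurable_prodMk_left
  rw [lintegral_dirac' _ (measurable_measure_prodMk_left (measurable_cons hs)),
    Measure.map_apply hmm hs]
  rfl

section Exist
variable {D : Type} [Fintype D] [Nonempty D] [MeasurableSpace D] [MeasurableSingletonClass D]

/-- The coding map. -/
noncomputable def coding (N : ℝ) (d : D → ℝ) (ω : ℕ → D) : ℝ := ∑' j, d (ω j) / N ^ (j + 1)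

theorem coding_summable {N : ℝ} (hN : 1 < N) (d : D → ℝ) (ω : ℕ → D) :
    Summable (fun j => d (ω j) / N ^ (j + 1)) := by
  obtain ⟨M, hM⟩ : ∃ M, ∀ a, |d a| ≤ M := by
    refine ⟨∑ a, |d a|, fun a => ?_⟩
    exact Finset.single_le_sum (f := fun a => |d a|) (fun i _ => abs_nonneg _) (Finset.mem_univ a)
  have hg : Summable (fun j : ℕ => M * (N⁻¹) ^ (j + 1)) := by
    apply Summable.mul_left
    have : Summable (fun j : ℕ => (N⁻¹) ^ j) :=
      summable_geometric_of_lt_one (by positivity) (inv_lt_one_of_one_lt₀ hN)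
    exact (summable_nat_add_iff 1).2 this
  refine Summable.of_norm_bounded hg ?_
  intro j
  rw [Real.norm_eq_abs, abs_div, abs_of_pos (show (0 : ℝ) < N ^ (j + 1) by positivity),
    div_eq_mul_inv, ← inv_pow]
  exact mul_le_mul_of_nonneg_right (hM _) (by positivity)

theorem coding_cons {N : ℝ} (hN : 1 < N) (d : D → ℝ) (a : D) (ω : ℕ → D) :
    coding N d (cons (a, ω)) = (coding N d ω + d a) / N := by
  unfold coding
  rw [(coding_summable hN d (cons (a, ω))).tsum_eq_zero_add]
  have h1 : ∀ j : ℕ, d (cons (a, ω) (j + 1)) / N ^ (j + 1 + 1)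
      = (d (ω j) / N ^ (j + 1)) / N := by
    intro j
    have : cons (a, ω) (j + 1) = ω j := rfl
    rw [this]
    have hN0 : N ≠ 0 := by positivity
    rw [pow_succ N (j + 1)]
    field_simp
  simp_rw [h1]
  rw [tsum_div_const]
  have : cons (a, ω) 0 = a := rfl
  rw [this]
  ring

theorem measurable_coding {N : ℝ} (hN : 1 < N) (d : D → ℝ) : Measurable (coding N d) := by
  have h1 : ∀ n : ℕ, Measurable (fun ω : ℕ → D => ∑ j ∈ Finset.range n, d (ω j) / N ^ (j + 1)) := by
    intro n
    apply Finset.measurable_fun_sum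
    intro j _
    exact ((measurable_of_finite d).comp (measurable_pi_apply j)).div_const _
  refine measurable_of_tendsto_metrizable h1 ?_
  rw [tendsto_pi_nhds]
  intro ω
  exact (coding_summable hN d ω).hasSum.tendsto_sum_nat

theorem geom_hasSum {N : ℝ} (hN : 1 < N) (M : ℝ) :
    HasSum (fun j : ℕ => M / N ^ (j + 1)) (M / (N - 1)) := by
  have h1 := hasSum_geometric_of_lt_one (r := N⁻¹) (by positivity) (inv_lt_one_of_one_lt₀ hN)
  have h2 := h1.mul_left (M * N⁻¹)
  have hN0 : N ≠ 0 := by positivity
  have hN1 : N - 1 ≠ 0 := by linarith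
  have e : M * N⁻¹ * (1 - N⁻¹)⁻¹ = M / (N - 1) := by
    have : (1 - N⁻¹) ≠ 0 := by
      rw [sub_ne_zero]; intro h
      have := inv_lt_one_of_one_lt₀ hN
      linarith
    field_simp
  rw [e] at h2
  have h3 : (fun j : ℕ => M / N ^ (j + 1)) = fun j : ℕ => M * N⁻¹ * N⁻¹ ^ j := by
    funext j
    rw [inv_pow, pow_succ]
    field_simp
  rw [h3]
  exact h2

theorem coding_le {N : ℝ} (hN : 1 < N) (d : D → ℝ) (M : ℝ) (hM : ∀ a, d a ≤ M) (ω : ℕ → D) :
    coding N d ω ≤ M / (N - 1) := by
  refine hasSum_le (fun j => ?_) (coding_summable hN d ω).hasSum (geom_hasSum hN M)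
  exact div_le_div_of_nonneg_right (hM _) (by positivity)

theorem le_coding {N : ℝ} (hN : 1 < N) (d : D → ℝ) (M : ℝ) (hM : ∀ a, M ≤ d a) (ω : ℕ → D) :
    M / (N - 1) ≤ coding N d ω := by
  refine hasSum_le (fun j => ?_) (geom_hasSum hN M) (coding_summable hN d ω).hasSum
  exact div_le_div_of_nonneg_right (hM _) (by positivity)

/-- The equal-weight self-similar measure for the maps `x ↦ (x + d a) / N`. -/
noncomputable def ssm (N : ℝ) (d : D → ℝ) : Measure ℝ := (iid D).map (coding N d)

theorem ssm_prob {N : ℝ} (hN : 1 < N) (d : D → ℝ) : IsProbabilityMeasure (ssm N d) :=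
  Measure.isProbabilityMeasure_map (measurable_coding hN d).aemeasurable

theorem ssm_eq {N : ℝ} (hN : 1 < N) (d : D → ℝ) :
    ssm N d = (Fintype.card D : ℝ≥0∞)⁻¹ • ∑ a : D, (ssm N d).map (fun x => (x + d a) / N) := by
  conv_lhs => unfold ssm
  rw [iid_split]
  ext s hs
  have hmm : ∀ a : D, Measurable (fun ω : ℕ → D => cons (a, ω)) := fun a =>
    measurable_cons.comp measurable_prodMk_left
  rw [Measure.map_smul, Measure.smul_apply, Measure.smul_apply]
  congr 1
  rw [Measure.map_apply (measurable_coding hN d) hs, Measure.finsetSum_apply,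
    Measure.finsetSum_apply]
  apply Finset.sum_congr rfl
  intro a _
  have hpre : MeasurableSet (coding N d ⁻¹' s) := measurable_coding hN d hs
  have hma : Measurable (fun x : ℝ => (x + d a) / N) := by fun_prop
  rw [Measure.map_apply (hmm a) hpre, Measure.map_apply hma hs]
  unfold ssm
  rw [Measure.map_apply (measurable_coding hN d) (hma hs)]
  congr 1
  ext ω
  simp only [Set.mem_preimage]
  rw [coding_cons hN]

theorem ssm_supp {N : ℝ} (hN : 1 < N) (d : D → ℝ) (m M : ℝ) (hm : ∀ a, m ≤ d a)
    (hM : ∀ a, d a ≤ M) : ∀ᵐ x ∂(ssm N d), m / (N - 1) ≤ x ∧ x ≤ M / (N - 1) := by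
  unfold ssm
  rw [ae_map_iff (measurable_coding hN d).aemeasurable
    (measurableSet_Icc (a := m / (N - 1)) (b := M / (N - 1)))]
  exact Eventually.of_forall fun ω => ⟨le_coding hN d m hm ω, coding_le hN d M hM ω⟩

/-- Integrals against a self-similar measure. -/
theorem ssm_integral {N : ℝ} (hN : 1 < N) (d : D → ℝ) (f : ℝ → ℂ) (hf : Continuous f)
    (hb : ∃ C, ∀ x, ‖f x‖ ≤ C) :
    ∫ x, f x ∂(ssm N d) = (Fintype.card D : ℂ)⁻¹ * ∑ a : D, ∫ x, f ((x + d a) / N) ∂(ssm N d) := by
  have := ssm_prob hN d
  obtain ⟨C, hC⟩ := hb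
  conv_lhs => rw [ssm_eq hN d]
  rw [integral_smul_measure, integral_finsetSum_measure]
  · rw [ENNReal.toReal_inv, ENNReal.toReal_natCast, Complex.real_smul]
    push_cast
    congr 1
    apply Finset.sum_congr rfl
    intro a _
    rw [integral_map (by fun_prop) hf.aestronglyMeasurable]
  · intro a _
    have : IsProbabilityMeasure ((ssm N d).map (fun x => (x + d a) / N)) :=
      Measure.isProbabilityMeasure_map (by fun_prop)
    exact Integrable.of_bound hf.aestronglyMeasurable C (Eventually.of_forall hC)

/-- The mask of a self-similar measure. -/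
noncomputable def mask (d : D → ℝ) (t : ℝ) : ℂ := (Fintype.card D : ℂ)⁻¹ * ∑ a : D, ex t (d a)

theorem ehat_ssm {N : ℝ} (hN : 1 < N) (d : D → ℝ) (t : ℝ) :
    ehat (ssm N d) t = mask d (t / N) * ehat (ssm N d) (t / N) := by
  unfold ehat
  rw [ssm_integral hN d (ex t) (ex_continuous t) ⟨1, fun x => (ex_norm t x).le⟩]
  unfold mask
  rw [mul_assoc, Finset.sum_mul]
  congr 1
  apply Finset.sum_congr rfl
  intro a _
  rw [← integral_const_mul]
  apply integral_congr_ae
  filter_upwards with x
  have : (x + d a) / N = N⁻¹ * (d a + x) := by ring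
  rw [this, ex_mul_right, ex_add_right]
  rfl

end Exist

end Pool.Agent.X125.Spec
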