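import Pool.Agent.X125.Spec.SelfSim

/-! The self-similar measure `μ(12, {0,1,8,9})` is spectral. -/

set_option autoImplicit false
open MeasureTheory Filter Topology
open scoped ENNReal Real

namespace Pool.Agent.X125.Spec.Twelve

/-- The digits of the auxiliary measure. -/
noncomputable def dg : Fin 4 → ℝ := ![0, 2 / 3, 1, 5 / 3]

/-- The auxiliary measure. -/
noncomputable def mu1 : Measure ℝ := ssm 12 dg

instance : IsProbabilityMeasure mu1 := ssm_prob (by norm_num) dg

/-- The measure `μ(12, {0,1,8,9})`. -/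
noncomputable def mu : Measure ℝ := (2 : ℝ≥0∞)⁻¹ • (mu1 + mu1.map (fun x => x + 2 / 3))

instance : IsProbabilityMeasure (mu1.map (fun x : ℝ => x + 2 / 3)) :=
  Measure.isProbabilityMeasure_map (by fun_prop)

instance : IsProbabilityMeasure mu := by
  constructor
  unfold mu
  rw [Measure.smul_apply, Measure.add_apply, measure_univ, measure_univ, smul_eq_mul]
  rw [show (1 : ℝ≥0∞) + 1 = 2 by norm_num]
  exact ENNReal.inv_mul_cancel (by simp) (by simp)

theorem mu1_eq : mu1 = (4 : ℝ≥0∞)⁻¹ • (mu1.map (fun x => (x + 0) / 12)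
    + mu1.map (fun x => (x + 2 / 3) / 12) + mu1.map (fun x => (x + 1) / 12)
    + mu1.map (fun x => (x + 5 / 3) / 12)) := by
  have h := ssm_eq (N := 12) (by norm_num) dg
  rw [Fin.sum_univ_four] at h
  have hc : (Fintype.card (Fin 4) : ℝ≥0∞) = 4 := by simp
  rw [hc] at h
  exact h

/-- Self-similarity of `mu`. -/
theorem mu_eq : mu = (4 : ℝ≥0∞)⁻¹ • (mu.map (fun x => (x + 0) / 12)
    + mu.map (fun x => (x + 1) / 12) + mu.map (fun x => (x + 8) / 12)
    + mu.map (fun x => (x + 9) / 12)) := by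
  have hS : ∀ a : ℝ, Measurable (fun x : ℝ => (x + a) / 12) := fun a => by fun_prop
  have hT : Measurable (fun x : ℝ => x + 2 / 3) := by fun_prop
  have h1 : ∀ a b : ℝ, b = a + 2 / 3 → (mu1.map (fun x => x + 2 / 3)).map (fun x => (x + a) / 12)
      = mu1.map (fun x => (x + b) / 12) := by
    intro a b hab
    rw [Measure.map_map (hS a) hT]
    congr 1
    ext x
    simp only [Function.comp]
    rw [hab]; ring
  have h2 : ∀ a b : ℝ, b = a + 8 → (mu1.map (fun x => (x + a) / 12)).map (fun x => x + 2 / 3)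
      = mu1.map (fun x => (x + b) / 12) := by
    intro a b hab
    rw [Measure.map_map hT (hS a)]
    congr 1
    ext x
    simp only [Function.comp]
    rw [hab]; ring
  have hmap : ∀ a b : ℝ, b = a + 2 / 3 → mu.map (fun x => (x + a) / 12)
      = (2 : ℝ≥0∞)⁻¹ • (mu1.map (fun x => (x + a) / 12) + mu1.map (fun x => (x + b) / 12)) := by
    intro a b hab
    unfold mu
    rw [Measure.map_smul, Measure.map_add _ _ (hS a), h1 a b hab]
  rw [hmap 0 (2 / 3) (by norm_num), hmap 1 (5 / 3) (by norm_num), hmap 8 (26 / 3) (by norm_num),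
    hmap 9 (29 / 3) (by norm_num)]
  have hT1 : mu1.map (fun x => x + 2 / 3) = (4 : ℝ≥0∞)⁻¹ • (mu1.map (fun x => (x + 8) / 12)
    + mu1.map (fun x => (x + 26 / 3) / 12) + mu1.map (fun x => (x + 9) / 12)
    + mu1.map (fun x => (x + 29 / 3) / 12)) := by
    conv_lhs => rw [mu1_eq]
    rw [Measure.map_smul, Measure.map_add _ _ hT, Measure.map_add _ _ hT, Measure.map_add _ _ hT,
      h2 0 8 (by norm_num), h2 (2 / 3) (26 / 3) (by norm_num), h2 1 9 (by norm_num),
      h2 (5 / 3) (29 / 3) (by norm_num)]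
  have hL : mu = (2 : ℝ≥0∞)⁻¹ • ((4 : ℝ≥0∞)⁻¹ • (mu1.map (fun x => (x + 0) / 12)
    + mu1.map (fun x => (x + 2 / 3) / 12) + mu1.map (fun x => (x + 1) / 12)
    + mu1.map (fun x => (x + 5 / 3) / 12)) + (4 : ℝ≥0∞)⁻¹ • (mu1.map (fun x => (x + 8) / 12)
    + mu1.map (fun x => (x + 26 / 3) / 12) + mu1.map (fun x => (x + 9) / 12)
    + mu1.map (fun x => (x + 29 / 3) / 12))) := by
    conv_lhs => unfold mu
    rw [← hT1, ← mu1_eq]
  rw [hL]
  generalize mu1.map (fun x => (x + 0) / 12) = m0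
  generalize mu1.map (fun x => (x + 2 / 3) / 12) = m1
  generalize mu1.map (fun x => (x + 1) / 12) = m2
  generalize mu1.map (fun x => (x + 5 / 3) / 12) = m3
  generalize mu1.map (fun x => (x + 8) / 12) = m4
  generalize mu1.map (fun x => (x + 26 / 3) / 12) = m5
  generalize mu1.map (fun x => (x + 9) / 12) = m6
  generalize mu1.map (fun x => (x + 29 / 3) / 12) = m7
  simp only [smul_add, smul_smul]
  rw [mul_comm (4 : ℝ≥0∞)⁻¹ (2 : ℝ≥0∞)⁻¹]
  abel

theorem mask_eq (t : ℝ) : mask dg t = 4⁻¹ * ((1 + ex t (2 / 3)) * (1 + ex t 1)) := by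
  unfold mask
  rw [Fin.sum_univ_four]
  have h0 : dg 0 = 0 := rfl
  have h1 : dg 1 = 2 / 3 := rfl
  have h2 : dg 2 = 1 := rfl
  have h3 : dg 3 = 5 / 3 := rfl
  rw [h0, h1, h2, h3]
  have e : ex t (5 / 3) = ex t (2 / 3) * ex t 1 := by rw [← ex_add_right]; norm_num
  have e0 : ex t 0 = 1 := by unfold ex; simp
  rw [e, e0]
  simp only [Fintype.card_fin, Nat.cast_ofNat]
  ring

theorem norm_one_add_ex (t y : ℝ) : ‖(1 + ex t y) / 2‖ ^ 2 = Real.cos (π * t * y) ^ 2 := by
  have h1 : (1 + ex t y) / 2 = ex (t / 2) y * (Real.cos (π * t * y) : ℂ) := by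
    have h2 : ex t y = ex (t / 2) y * ex (t / 2) y := by rw [← ex_add]; congr 1; ring
    have h3 : (1 : ℂ) = ex (t / 2) y * ex (-(t / 2)) y := by rw [← ex_add]; simp [ex_zero]
    have h4 : (Real.cos (π * t * y) : ℂ) = (ex (-(t / 2)) y + ex (t / 2) y) / 2 := by
      unfold ex
      rw [Complex.ofReal_cos, Complex.cos]
      congr 1
      rw [add_comm]
      congr 2
      · push_cast; ring
      · push_cast; ring
    rw [h4]
    conv_lhs => rw [h2]
    calc (1 + ex (t / 2) y * ex (t / 2) y) / 2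
        = (ex (t / 2) y * ex (-(t / 2)) y + ex (t / 2) y * ex (t / 2) y) / 2 := by rw [← h3]
      _ = _ := by ring
  rw [h1, norm_mul, ex_norm, one_mul, Complex.norm_real, Real.norm_eq_abs, sq_abs]

/-- Squared modulus of the mask. -/
noncomputable def qq (t : ℝ) : ℝ := Real.cos (2 * π * t / 3) ^ 2 * Real.cos (π * t) ^ 2

theorem mask_norm (t : ℝ) : ‖mask dg t‖ ^ 2 = qq t := by
  rw [mask_eq]
  have : (4⁻¹ : ℂ) * ((1 + ex t (2 / 3)) * (1 + ex t 1))
      = ((1 + ex t (2 / 3)) / 2) * ((1 + ex t 1) / 2) := by ring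
  rw [this, norm_mul, mul_pow, norm_one_add_ex, norm_one_add_ex]
  unfold qq
  congr 3
  · ring
  · ring

theorem cos_sq_add_int_mul_pi (x : ℝ) (z : ℤ) : Real.cos (x + z * π) ^ 2 = Real.cos x ^ 2 := by
  rw [Real.cos_add_int_mul_pi]
  rw [mul_pow, ← zpow_natCast, ← zpow_mul]
  have : ((-1 : ℝ) ^ (z * ((2 : ℕ) : ℤ))) = 1 := by
    rw [mul_comm, zpow_mul]; norm_num
  rw [this, one_mul]

theorem qq_per (t : ℝ) (z : ℤ) : qq (t - 9 * z) = qq t := by
  unfold qq
  have h1 : 2 * π * (t - 9 * z) / 3 = 2 * π * t / 3 + ((-6 * z : ℤ) : ℝ) * π := by push_cast; ring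
  have h2 : π * (t - 9 * z) = π * t + ((-9 * z : ℤ) : ℝ) * π := by push_cast; ring
  rw [h1, h2, cos_sq_add_int_mul_pi, cos_sq_add_int_mul_pi]

theorem qq_sum (s : ℝ) : qq s + qq (s - 3 / 4) + qq (s - 6 / 4) + qq (s - 9 / 4) = 1 := by
  unfold qq
  have a1 : Real.cos (2 * π * (s - 3 / 4) / 3) = Real.sin (2 * π * s / 3) := by
    rw [← Real.cos_sub_pi_div_two]; congr 1; ring
  have a2 : Real.cos (2 * π * (s - 6 / 4) / 3) = - Real.cos (2 * π * s / 3) := by
    rw [← Real.cos_sub_pi]; congr 1; ring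
  have a3 : Real.cos (2 * π * (s - 9 / 4) / 3) = - Real.sin (2 * π * s / 3) := by
    rw [← Real.cos_sub_pi_div_two, ← Real.cos_sub_pi]; congr 1; ring
  have b2 : Real.cos (π * (s - 6 / 4)) = - Real.sin (π * s) := by
    rw [← Real.cos_sub_pi_div_two, ← Real.cos_sub_pi]; congr 1; ring
  have b1 : Real.cos (π * (s - 3 / 4)) = Real.sin (π * s - π / 4) := by
    rw [← Real.cos_sub_pi_div_two]; congr 1; ring
  have b3 : Real.cos (π * (s - 9 / 4)) = Real.cos (π * s - π / 4) := by
    rw [← Real.cos_sub_two_pi (π * s - π / 4)]; congr 1; ring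
  rw [a1, a2, a3, b1, b2, b3]
  have h1 := Real.sin_sq_add_cos_sq (2 * π * s / 3)
  have h2 := Real.sin_sq_add_cos_sq (π * s)
  have h3 := Real.sin_sq_add_cos_sq (π * s - π / 4)
  generalize Real.cos (2 * π * s / 3) = A at *
  generalize Real.sin (2 * π * s / 3) = B at *
  generalize Real.cos (π * s) = C at *
  generalize Real.sin (π * s) = D at *
  generalize Real.cos (π * s - π / 4) = E at *
  generalize Real.sin (π * s - π / 4) = F at *
  have : A ^ 2 * C ^ 2 + B ^ 2 * F ^ 2 + (-A) ^ 2 * (-D) ^ 2 + (-B) ^ 2 * E ^ 2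
      = A ^ 2 * (D ^ 2 + C ^ 2) + B ^ 2 * (F ^ 2 + E ^ 2) := by ring
  rw [this, h2, h3]; linarith

/-- Base-4 digits reread in base 12. -/
def g (n : ℕ) : ℕ := Nat.ofDigits 12 (Nat.digits 4 n)

theorem g_step (q c : ℕ) (hc : c < 4) : g (4 * q + c) = 12 * g q + c := by
  unfold g
  rcases Nat.eq_zero_or_pos (4 * q + c) with h | h
  · have hq : q = 0 := by omega
    have hc0 : c = 0 := by omega
    subst hq; subst hc0
    simp
  · rw [Nat.digits_def' (by norm_num) h]
    rw [Nat.ofDigits_cons]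
    have h1 : (4 * q + c) % 4 = c := by omega
    have h2 : (4 * q + c) / 4 = q := by omega
    rw [h1, h2]
    ring

theorem g_bound (k n : ℕ) (hn : n < 4 ^ k) : 11 * g n + 3 ≤ 3 * 12 ^ k := by
  induction k generalizing n with
  | zero =>
    have : n = 0 := by simpa using hn
    subst this
    simp [g]
  | succ k ih =>
    have e : n = 4 * (n / 4) + n % 4 := by omega
    have hc : n % 4 < 4 := Nat.mod_lt _ (by norm_num)
    have hq : n / 4 < 4 ^ k := by
      rw [pow_succ] at hn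
      omega
    rw [e, g_step _ _ hc, pow_succ]
    have := ih _ hq
    omega

theorem sum_range_four (m : ℕ) (f : ℕ → ℝ) : ∑ n ∈ Finset.range (4 * m), f n
    = ∑ n ∈ Finset.range m, (f (4 * n) + f (4 * n + 1) + f (4 * n + 2) + f (4 * n + 3)) := by
  induction m with
  | zero => simp
  | succ m ih =>
    rw [Finset.sum_range_succ, ← ih, show 4 * (m + 1) = 4 * m + 3 + 1 by ring,
      Finset.sum_range_succ, Finset.sum_range_succ, Finset.sum_range_succ, Finset.sum_range_succ]
    ring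

/-- Partial products. -/
noncomputable def Mk : ℕ → ℝ → ℝ
  | 0, _ => 1
  | k + 1, t => qq (t / 12) * Mk k (t / 12)

theorem Mk_nonneg (k : ℕ) (t : ℝ) : 0 ≤ Mk k t := by
  induction k generalizing t with
  | zero => simp [Mk]
  | succ k ih =>
    simp only [Mk]
    exact mul_nonneg (by unfold qq; positivity) (ih _)

theorem Mk_parseval (k : ℕ) (ξ : ℝ) : ∑ n ∈ Finset.range (4 ^ k), Mk k (ξ - 9 * g n) = 1 := by
  induction k generalizing ξ with
  | zero => simp [Mk]
  | succ k ih =>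
    rw [pow_succ, mul_comm, sum_range_four]
    have hstep : ∀ (n c : ℕ), c < 4 → Mk (k + 1) (ξ - 9 * g (4 * n + c))
        = qq (ξ / 12 - 3 * c / 4) * Mk k ((ξ / 12 - 3 * c / 4) - 9 * g n) := by
      intro n c hc
      simp only [Mk]
      rw [g_step n c hc]
      have e : (ξ - 9 * ((12 * g n + c : ℕ) : ℝ)) / 12 = (ξ / 12 - 3 * c / 4) - 9 * ((g n : ℤ) : ℝ) := by
        push_cast; ring
      rw [e, qq_per]
      push_cast
      rfl
    have h0 := fun n => hstep n 0 (by norm_num)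
    have h1 := fun n => hstep n 1 (by norm_num)
    have h2 := fun n => hstep n 2 (by norm_num)
    have h3 := fun n => hstep n 3 (by norm_num)
    simp only [add_zero] at h0
    simp only [h0, h1, h2, h3]
    rw [Finset.sum_add_distrib, Finset.sum_add_distrib, Finset.sum_add_distrib,
      ← Finset.mul_sum, ← Finset.mul_sum, ← Finset.mul_sum, ← Finset.mul_sum, ih, ih, ih, ih]
    have := qq_sum (ξ / 12)
    norm_num at this ⊢
    exact this

theorem ehat_norm (k : ℕ) (t : ℝ) :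
    ‖ehat mu1 t‖ ^ 2 = Mk k t * ‖ehat mu1 (t / 12 ^ k)‖ ^ 2 := by
  induction k generalizing t with
  | zero => simp [Mk]
  | succ k ih =>
    have h : ehat mu1 t = mask dg (t / 12) * ehat mu1 (t / 12) := ehat_ssm (by norm_num) dg t
    rw [h, norm_mul, mul_pow, mask_norm, ih (t / 12)]
    simp only [Mk]
    rw [show t / 12 / 12 ^ k = t / 12 ^ (k + 1) by rw [pow_succ]; field_simp]
    ring

theorem mu1_supp : ∀ᵐ x ∂mu1, 0 ≤ x ∧ x ≤ 5 / 33 := by
  have h := ssm_supp (N := 12) (by norm_num) dg 0 (5 / 3)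
    (by intro a; fin_cases a <;> simp [dg] <;> norm_num)
    (by intro a; fin_cases a <;> simp [dg] <;> norm_num)
  filter_upwards [h] with x hx
  constructor
  · linarith [hx.1]
  · have := hx.2
    norm_num at this
    linarith

theorem low (y : ℝ) (hy : |y| ≤ 2.505) : 1 / 16 ≤ ‖ehat mu1 y‖ ^ 2 := by
  have h1 : 1 / 4 ≤ ‖ehat mu1 y‖ := by
    have h2 : ehat mu1 y = ex y (5 / 66) * ∫ x, ex y (x - 5 / 66) ∂mu1 := by
      unfold ehat
      rw [← integral_const_mul]
      apply integral_congr_ae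
      filter_upwards with x
      rw [← ex_add_right]; congr 1; ring
    rw [h2, norm_mul, ex_norm, one_mul]
    have hint : Integrable (fun x => ex y (x - 5 / 66)) mu1 := by
      refine Integrable.of_bound ?_ 1 (Eventually.of_forall fun x => (ex_norm _ _).le)
      exact ((ex_continuous y).comp (by fun_prop)).aestronglyMeasurable
    have h3 : 1 / 4 ≤ (∫ x, ex y (x - 5 / 66) ∂mu1).re := by
      have h4 : (∫ x, ex y (x - 5 / 66) ∂mu1).re = ∫ x, (ex y (x - 5 / 66)).re ∂mu1 := by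
        have := integral_re hint
        simpa using this.symm
      rw [h4]
      have h5 : ∫ x, (1 / 4 : ℝ) ∂mu1 = 1 / 4 := by simp
      rw [← h5]
      apply integral_mono_ae (integrable_const _) hint.re
      filter_upwards [mu1_supp] with x hx
      have e : (ex y (x - 5 / 66)).re = Real.cos (2 * π * (y * (x - 5 / 66))) := by
        unfold ex
        have : (2 * π * Complex.I * ((y * (x - 5 / 66) : ℝ) : ℂ))
            = ((2 * π * (y * (x - 5 / 66)) : ℝ) : ℂ) * Complex.I := by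
          push_cast; ring
        rw [this, Complex.exp_ofReal_mul_I_re]
      change 1 / 4 ≤ (ex y (x - 5 / 66)).re
      rw [e]
      have h6 := Real.one_sub_sq_div_two_le_cos (x := 2 * π * (y * (x - 5 / 66)))
      have h7 : |x - 5 / 66| ≤ 5 / 66 := by
        rw [abs_le]; constructor <;> linarith [hx.1, hx.2]
      have h8 : |2 * π * (y * (x - 5 / 66))| ≤ 1.2 := by
        rw [abs_mul (2 * π), abs_mul y, abs_of_pos (show (0 : ℝ) < 2 * π by positivity)]
        have h9 : |y| * |x - 5 / 66| ≤ 2.505 * (5 / 66) :=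
          mul_le_mul hy h7 (abs_nonneg _) (by norm_num)
        have h10 : 2 * π ≤ 2 * 3.15 := by
          have := Real.pi_lt_d2
          linarith
        calc 2 * π * (|y| * |x - 5 / 66|) ≤ (2 * 3.15) * (2.505 * (5 / 66)) :=
              mul_le_mul h10 h9 (by positivity) (by norm_num)
          _ ≤ 1.2 := by norm_num
      have h11 : (2 * π * (y * (x - 5 / 66))) ^ 2 ≤ 1.2 ^ 2 := by
        rw [← sq_abs]
        exact pow_le_pow_left₀ (abs_nonneg _) h8 2
      norm_num at h11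
      linarith
    exact h3.trans (Complex.re_le_norm _)
  have : (1 / 4 : ℝ) ^ 2 ≤ ‖ehat mu1 y‖ ^ 2 := pow_le_pow_left₀ (by norm_num) h1 2
  norm_num at this ⊢
  exact this

theorem ehat_mu (t : ℝ) : ehat mu t = (1 + ex t (2 / 3)) / 2 * ehat mu1 t := by
  unfold mu
  conv_lhs => unfold ehat
  rw [integral_smul_measure, integral_add_measure (ex_integrable _ _) (ex_integrable _ _),
    integral_map (by fun_prop) (ex_continuous t).aestronglyMeasurable]
  have h : ∫ x, ex t (x + 2 / 3) ∂mu1 = ex t (2 / 3) * ehat mu1 t := by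
    unfold ehat
    rw [← integral_const_mul]
    apply integral_congr_ae
    filter_upwards with x
    rw [← ex_add_right, add_comm]
  rw [h, ENNReal.toReal_inv, Complex.real_smul]
  change _ * (ehat mu1 t + _) = _
  simp only [ENNReal.toReal_ofNat, Complex.ofReal_inv, Complex.ofReal_ofNat]
  ring

/-- Squared modulus of the extra factor. -/
noncomputable def c2 (t : ℝ) : ℝ := Real.cos (2 * π * t / 3) ^ 2

theorem c2_per (t : ℝ) (z : ℤ) : c2 (t - 9 * z) = c2 t := by
  unfold c2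
  have h1 : 2 * π * (t - 9 * z) / 3 = 2 * π * t / 3 + ((-6 * z : ℤ) : ℝ) * π := by push_cast; ring
  rw [h1, cos_sq_add_int_mul_pi]

theorem c2_sum (t : ℝ) : c2 t + c2 (t - 3 / 4) = 1 := by
  unfold c2
  have a1 : Real.cos (2 * π * (t - 3 / 4) / 3) = Real.sin (2 * π * t / 3) := by
    rw [← Real.cos_sub_pi_div_two]; congr 1; ring
  rw [a1]
  have := Real.sin_sq_add_cos_sq (2 * π * t / 3)
  linarith

theorem ehat_mu_norm (t : ℝ) : ‖ehat mu t‖ ^ 2 = c2 t * ‖ehat mu1 t‖ ^ 2 := by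
  rw [ehat_mu, norm_mul, mul_pow, norm_one_add_ex]
  unfold c2
  congr 3
  ring

/-- The frequencies. -/
noncomputable def lam (i : Fin 2 × ℕ) : ℝ := 3 / 4 * (i.1 : ℕ) + 9 * g i.2

theorem qq_zero (u : ℤ) (h0 : u ≠ 0) (h1 : -3 ≤ u) (h2 : u ≤ 3) : qq (3 * u / 4) = 0 := by
  have c1 : Real.cos (π / 2) = 0 := Real.cos_pi_div_two
  have c3 : Real.cos (3 * π / 2) = 0 := by
    have : 3 * π / 2 = π / 2 + π := by ring
    rw [this, Real.cos_add_pi, c1, neg_zero]
  unfold qq
  have hu : u = -3 ∨ u = -2 ∨ u = -1 ∨ u = 1 ∨ u = 2 ∨ u = 3 := by omega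
  rcases hu with h | h | h | h | h | h <;> subst h
  · have : 2 * π * (3 * ((-3 : ℤ) : ℝ) / 4) / 3 = -(3 * π / 2) := by push_cast; ring
    rw [this, Real.cos_neg, c3]; ring
  · have : π * (3 * ((-2 : ℤ) : ℝ) / 4) = -(3 * π / 2) := by push_cast; ring
    rw [this, Real.cos_neg, c3]; ring
  · have : 2 * π * (3 * ((-1 : ℤ) : ℝ) / 4) / 3 = -(π / 2) := by push_cast; ring
    rw [this, Real.cos_neg, c1]; ring
  · have : 2 * π * (3 * ((1 : ℤ) : ℝ) / 4) / 3 = (π / 2) := by push_cast; ring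
    rw [this, c1]; ring
  · have : π * (3 * ((2 : ℤ) : ℝ) / 4) = (3 * π / 2) := by push_cast; ring
    rw [this, c3]; ring
  · have : 2 * π * (3 * ((3 : ℤ) : ℝ) / 4) / 3 = (3 * π / 2) := by push_cast; ring
    rw [this, c3]; ring

theorem mu1_orth (s n m : ℕ) (hs : n + m = s) (h : n ≠ m) :
    ehat mu1 (9 * ((g n : ℝ) - g m)) = 0 := by
  induction s using Nat.strong_induction_on generalizing n m with
  | _ s ih =>
    have en : n = 4 * (n / 4) + n % 4 := by omega
    have em : m = 4 * (m / 4) + m % 4 := by omega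
    have hcn : n % 4 < 4 := Nat.mod_lt _ (by norm_num)
    have hcm : m % 4 < 4 := Nat.mod_lt _ (by norm_num)
    have hgn : g n = 12 * g (n / 4) + n % 4 := by
      conv_lhs => rw [en, g_step _ _ hcn]
    have hgm : g m = 12 * g (m / 4) + m % 4 := by
      conv_lhs => rw [em, g_step _ _ hcm]
    have hh : ehat mu1 (9 * ((g n : ℝ) - g m)) = mask dg (9 * ((g n : ℝ) - g m) / 12)
      * ehat mu1 (9 * ((g n : ℝ) - g m) / 12) := ehat_ssm (by norm_num) dg _
    by_cases hc : n % 4 = m % 4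
    · have hne : n / 4 ≠ m / 4 := by omega
      have := ih (n / 4 + m / 4) (by omega) (n / 4) (m / 4) rfl hne
      rw [hh, hgn, hgm, hc]
      have e : 9 * (((12 * g (n / 4) + m % 4 : ℕ) : ℝ) - ((12 * g (m / 4) + m % 4 : ℕ) : ℝ)) / 12
        = 9 * ((g (n / 4) : ℝ) - g (m / 4)) := by push_cast; ring
      rw [e, this, mul_zero]
    · have hz : ‖mask dg (9 * ((g n : ℝ) - g m) / 12)‖ ^ 2 = 0 := by
        rw [mask_norm, hgn, hgm]
        have e : 9 * (((12 * g (n / 4) + n % 4 : ℕ) : ℝ) - ((12 * g (m / 4) + m % 4 : ℕ) : ℝ)) / 12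
          = 3 * ((((n % 4 : ℕ) : ℤ) - ((m % 4 : ℕ) : ℤ) : ℤ) : ℝ) / 4
            - 9 * (((g (m / 4) : ℤ) - (g (n / 4) : ℤ) : ℤ) : ℝ) := by
          simp only [Nat.cast_add, Nat.cast_mul, Nat.cast_ofNat, Int.cast_sub, Int.cast_natCast]
          ring
        rw [e, qq_per]
        apply qq_zero
        · omega
        · omega
        · omega
      have hz2 : mask dg (9 * ((g n : ℝ) - g m) / 12) = 0 := by
        rw [← norm_eq_zero]
        exact pow_eq_zero_iff (two_ne_zero) |>.1 hz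
      rw [hh, hz2, zero_mul]

theorem mu_orth (i j : Fin 2 × ℕ) (h : i ≠ j) : ehat mu (lam i - lam j) = 0 := by
  have hz : ‖ehat mu (lam i - lam j)‖ ^ 2 = 0 := by
    rw [ehat_mu_norm]
    obtain ⟨a, n⟩ := i
    obtain ⟨b, m⟩ := j
    unfold lam
    simp only
    by_cases hab : a = b
    · subst hab
      have hnm : n ≠ m := fun hh => h (by rw [hh])
      have e : 3 / 4 * ((a : ℕ) : ℝ) + 9 * (g n : ℝ) - (3 / 4 * ((a : ℕ) : ℝ) + 9 * (g m : ℝ))
          = 9 * ((g n : ℝ) - g m) := by ring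
      rw [e, mu1_orth _ n m rfl hnm]
      simp
    · have e : 3 / 4 * ((a : ℕ) : ℝ) + 9 * (g n : ℝ) - (3 / 4 * ((b : ℕ) : ℝ) + 9 * (g m : ℝ))
          = 3 / 4 * (((a : ℕ) : ℝ) - ((b : ℕ) : ℝ)) - 9 * (((g m : ℤ) - (g n : ℤ) : ℤ) : ℝ) := by
        push_cast; ring
      rw [e, c2_per]
      have hc : c2 (3 / 4 * (((a : ℕ) : ℝ) - ((b : ℕ) : ℝ))) = 0 := by
        unfold c2
        have hab' : ((a : ℕ) = 0 ∧ (b : ℕ) = 1) ∨ ((a : ℕ) = 1 ∧ (b : ℕ) = 0) := by
          have : (a : ℕ) ≠ (b : ℕ) := fun hh => hab (Fin.ext hh)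
          omega
        rcases hab' with ⟨h1, h2⟩ | ⟨h1, h2⟩
        · rw [h1, h2]
          have : 2 * π * (3 / 4 * (((0 : ℕ) : ℝ) - ((1 : ℕ) : ℝ))) / 3
              = -(π / 2) := by push_cast; ring
          rw [this, Real.cos_neg, Real.cos_pi_div_two]; ring
        · rw [h1, h2]
          have : 2 * π * (3 / 4 * (((1 : ℕ) : ℝ) - ((0 : ℕ) : ℝ))) / 3
              = (π / 2) := by push_cast; ring
          rw [this, Real.cos_pi_div_two]; ring
      rw [hc, zero_mul]
  rw [← norm_eq_zero]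
  exact pow_eq_zero_iff (two_ne_zero) |>.1 hz

theorem ehat_mu1_tendsto (t : ℝ) :
    Tendsto (fun k : ℕ => ‖ehat mu1 (t / 12 ^ k)‖ ^ 2) atTop (𝓝 1) := by
  have hcont : Continuous (ehat mu1) := by
    unfold ehat
    apply continuous_of_dominated (bound := fun _ => 1)
    · intro s; exact (ex_continuous s).aestronglyMeasurable
    · intro s; exact Eventually.of_forall fun x => (ex_norm s x).le
    · exact integrable_const _
    · refine Eventually.of_forall fun x => ?_
      unfold ex; fun_prop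
  have h1 : Tendsto (fun k : ℕ => t / 12 ^ k) atTop (𝓝 0) := by
    have := (tendsto_pow_atTop_nhds_zero_of_lt_one (r := (12 : ℝ)⁻¹) (by norm_num)
      (by norm_num)).const_mul t
    rw [mul_zero] at this
    refine this.congr fun k => ?_
    rw [inv_pow]; rfl
  have h2 := ((hcont.tendsto 0).comp h1).norm.pow 2
  have h3 : ehat mu1 0 = 1 := by unfold ehat; simp [ex_zero]
  rw [h3] at h2
  simpa using h2

theorem parseval (ξ : ℝ) (ε : ℝ) (hε : 0 < ε) : ∃ F : Finset (Fin 2 × ℕ),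
    1 - ε ≤ ∑ i ∈ F, ‖ehat mu (ξ - lam i)‖ ^ 2 := by
  have hmain := jp_limit (ι := Fin 2 × ℕ) (fun k => Finset.univ ×ˢ Finset.range (4 ^ k))
    (by
      intro a b hab
      apply Finset.product_subset_product_right
      intro x hx
      simp only [Finset.mem_range] at hx ⊢
      exact lt_of_lt_of_le hx (Nat.pow_le_pow_right (by norm_num) hab))
    (fun i => ‖ehat mu (ξ - lam i)‖ ^ 2)
    (fun k i => c2 (ξ - lam i) * Mk k (ξ - lam i))
    (fun i => by positivity)
    (fun n i => mul_nonneg (by unfold c2; positivity) (Mk_nonneg _ _))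
    (by
      intro i
      have h1 : ∀ k, ‖ehat mu (ξ - lam i)‖ ^ 2 = (c2 (ξ - lam i) * Mk k (ξ - lam i))
          * ‖ehat mu1 ((ξ - lam i) / 12 ^ k)‖ ^ 2 := by
        intro k
        rw [ehat_mu_norm, ehat_norm k]; ring
      have h2 := ehat_mu1_tendsto (ξ - lam i)
      have h3 : Tendsto (fun k : ℕ => ‖ehat mu (ξ - lam i)‖ ^ 2
          / ‖ehat mu1 ((ξ - lam i) / 12 ^ k)‖ ^ 2) atTop (𝓝 (‖ehat mu (ξ - lam i)‖ ^ 2 / 1)) :=
        tendsto_const_nhds.div h2 (by norm_num)
      rw [div_one] at h3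
      refine h3.congr' ?_
      have h4 : ∀ᶠ k in atTop, (0 : ℝ) < ‖ehat mu1 ((ξ - lam i) / 12 ^ k)‖ ^ 2 :=
        h2.eventually (lt_mem_nhds (by norm_num))
      filter_upwards [h4] with k hk
      rw [h1 k]
      exact mul_div_cancel_right₀ _ hk.ne')
    (by
      intro k
      rw [Finset.sum_product, Fin.sum_univ_two]
      have hs : ∀ a : Fin 2, ∑ n ∈ Finset.range (4 ^ k),
          c2 (ξ - lam (a, n)) * Mk k (ξ - lam (a, n)) = c2 (ξ - 3 / 4 * (a : ℕ)) := by
        intro a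
        have : ∀ n ∈ Finset.range (4 ^ k), c2 (ξ - lam (a, n)) * Mk k (ξ - lam (a, n))
            = c2 (ξ - 3 / 4 * (a : ℕ)) * Mk k ((ξ - 3 / 4 * (a : ℕ)) - 9 * g n) := by
          intro n _
          have e : ξ - lam (a, n) = (ξ - 3 / 4 * (a : ℕ)) - 9 * ((g n : ℤ) : ℝ) := by
            unfold lam; push_cast; ring
          rw [e, c2_per]
          push_cast
          rfl
        rw [Finset.sum_congr rfl this, ← Finset.mul_sum, Mk_parseval, mul_one]
      rw [hs 0, hs 1]
      have := c2_sum ξ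
      norm_num at this ⊢
      exact this)
    (1 / 16) (by norm_num) (fun _ => ∅) (by simp)
    (by
      have h1 : Tendsto (fun k : ℕ => (12 : ℝ) ^ k) atTop atTop :=
        tendsto_pow_atTop_atTop_of_one_lt (by norm_num)
      filter_upwards [h1.eventually_ge_atTop (100 * (|ξ| + 1))] with k hk i hi _
      simp only [Finset.mem_product, Finset.mem_range] at hi
      have hg := g_bound k i.2 hi.2
      have hgR : 11 * (g i.2 : ℝ) + 3 ≤ 3 * 12 ^ k := by exact_mod_cast hg
      have hg0 : (0 : ℝ) ≤ g i.2 := by positivity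
      have ha : (0 : ℝ) ≤ ((i.1 : ℕ) : ℝ) := by positivity
      have ha1 : ((i.1 : ℕ) : ℝ) ≤ 1 := by
        have : (i.1 : ℕ) ≤ 1 := by omega
        exact_mod_cast this
      have hy : |(ξ - lam i) / 12 ^ k| ≤ 2.505 := by
        have hpos : (0 : ℝ) < 12 ^ k := by positivity
        rw [abs_div, abs_of_pos hpos, div_le_iff₀ hpos]
        have h2 : |ξ - lam i| ≤ |ξ| + |lam i| := abs_sub _ _
        have h3 : |lam i| ≤ 3 / 4 + 9 * (3 * 12 ^ k / 11) := by
          unfold lam
          rw [abs_of_nonneg (by positivity)]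
          nlinarith
        have h4 : |ξ| + 1 ≤ 12 ^ k / 100 := by linarith
        norm_num at h3 h4 ⊢
        linarith
      have := low _ hy
      rw [ehat_mu_norm, ehat_norm k]
      have hb : 0 ≤ c2 (ξ - lam i) * Mk k (ξ - lam i) :=
        mul_nonneg (by unfold c2; positivity) (Mk_nonneg _ _)
      calc 1 / 16 * (c2 (ξ - lam i) * Mk k (ξ - lam i))
          ≤ ‖ehat mu1 ((ξ - lam i) / 12 ^ k)‖ ^ 2 * (c2 (ξ - lam i) * Mk k (ξ - lam i)) :=
            mul_le_mul_of_nonneg_right this hb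
        _ = _ := by ring)
    ε hε
  obtain ⟨n, hn⟩ := hmain
  exact ⟨_, hn⟩

/-- The exponentials are orthonormal and complete. -/
theorem spectral_complete (f : ℝ → ℂ) (hf : MemLp f 2 mu)
    (hfo : ∀ i, ∫ x, f x * ex (-lam i) x ∂mu = 0) : f =ᵐ[mu] 0 :=
  complete_of_parseval mu lam mu_orth parseval f hf hfo

end Pool.Agent.X125.Spec.Twelve
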